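import Mathlib

/-!
Density restoring decompositions.
-/

set_option linter.unusedSectionVars false

namespace Pool.Agent.MP_36f78e_lc.H44

open Finset

variable {Z Ω : Type} [Fintype Z] [DecidableEq Z] [Fintype Ω] [DecidableEq Ω] [Nonempty Ω]

/-- On the event `E` the set `K` is known, everything else is unpredictable, and `E` is not too
small. -/
structure Spread (O : Ω → Finset Z) (ρ : ℝ) (l : ℕ) (E : Finset Ω) (K : Finset Z) (c : ℝ) :
    Prop where
  sub : ∀ ω ∈ E, K ⊆ O ω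
  small : K.card ≤ l
  spread : ∀ Y : Finset Z, Disjoint Y K → Y.card ≤ l →
    ((E.filter fun ω => Y ⊆ O ω).card : ℝ) ≤ ρ ^ Y.card * E.card
  big : c * ρ ^ K.card ≤ E.card

variable {O : Ω → Finset Z} {ρ : ℝ} {l : ℕ}

lemma exists_spread (hρ : 0 < ρ)
    (hup : ∀ Y : Finset Z, Y.card ≤ 2 * l →
      ((univ.filter fun ω => Y ⊆ O ω).card : ℝ) ≤ (ρ / 2) ^ Y.card * Fintype.card Ω)
    {c : ℝ} (hc : (1 / 2) ^ l * Fintype.card Ω ≤ c) (E : Finset Ω) (K : Finset Z)
    (hK : ∀ ω ∈ E, K ⊆ O ω) (hl : K.card ≤ l) (hbig : c * ρ ^ K.card ≤ E.card) :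
    ∃ K', K ⊆ K' ∧ Spread O ρ l (E.filter fun ω => K' ⊆ O ω) K' c := by
  have hΩ : (0 : ℝ) < Fintype.card Ω := by exact_mod_cast Fintype.card_pos
  obtain ⟨K', hK', hmax⟩ := exists_max_image
    (univ.filter fun K' : Finset Z => K ⊆ K' ∧ K'.card ≤ 2 * l)
    (fun K' => ((E.filter fun ω => K' ⊆ O ω).card : ℝ) / ρ ^ K'.card)
    ⟨K, mem_filter.2 ⟨mem_univ _, subset_rfl, by omega⟩⟩
  obtain ⟨-, h1, h2⟩ := mem_filter.1 hK'
  have h3 : c ≤ ((E.filter fun ω => K' ⊆ O ω).card : ℝ) / ρ ^ K'.card := by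
    refine le_trans ?_ (hmax K (mem_filter.2 ⟨mem_univ _, subset_rfl, by omega⟩))
    rw [filter_true_of_mem hK, le_div_iff₀ (by positivity)]
    exact hbig
  have h4 : K'.card ≤ l := by
    have h5 : ((E.filter fun ω => K' ⊆ O ω).card : ℝ) ≤ (ρ / 2) ^ K'.card * Fintype.card Ω :=
      le_trans (by exact_mod_cast card_le_card (filter_subset_filter _ (subset_univ E)))
        (hup K' h2)
    have h6 : ((E.filter fun ω => K' ⊆ O ω).card : ℝ) / ρ ^ K'.card ≤
        (1 / 2) ^ K'.card * Fintype.card Ω := by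
      rw [div_le_iff₀ (by positivity)]
      refine h5.trans (le_of_eq ?_)
      rw [mul_right_comm, ← mul_pow]
      congr 2
      ring
    have h7 := le_of_mul_le_mul_right (hc.trans (h3.trans h6)) hΩ
    exact (pow_le_pow_iff_right_of_lt_one₀ (by norm_num) (by norm_num)).1 h7
  refine ⟨K', h1, fun ω hω => (mem_filter.1 hω).2, h4, fun Y hY hYl => ?_, ?_⟩
  · have e : (Y ∪ K').card = Y.card + K'.card := card_union_of_disjoint hY
    have h5 := hmax (Y ∪ K') (mem_filter.2 ⟨mem_univ _, h1.trans subset_union_right, by omega⟩)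
    rw [div_le_div_iff₀ (by positivity) (by positivity), e, pow_add] at h5
    have e2 : (E.filter fun ω => K' ⊆ O ω).filter (fun ω => Y ⊆ O ω) =
        E.filter fun ω => Y ∪ K' ⊆ O ω := by
      rw [filter_filter]
      exact filter_congr fun ω _ => by rw [union_subset_iff, and_comm]
    rw [e2]
    refine le_of_mul_le_mul_right (h5.trans (le_of_eq ?_)) (by positivity : 0 < ρ ^ K'.card)
    ring
  · rwa [le_div_iff₀ (by positivity)] at h3

lemma decomp (hρ : 0 < ρ)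
    (hup : ∀ Y : Finset Z, Y.card ≤ 2 * l →
      ((univ.filter fun ω => Y ⊆ O ω).card : ℝ) ≤ (ρ / 2) ^ Y.card * Fintype.card Ω)
    {c τ B : ℝ} (hc : (1 / 2) ^ l * Fintype.card Ω ≤ c) (K : Finset Z) (hl : K.card ≤ l)
    (hτ : c * ρ ^ K.card ≤ τ) {M : Type} [DecidableEq M] (Ms : Finset M) (col : Ω → M)
    (hcol : ∀ ω, col ω ∈ Ms) (g : Ω → ℝ) (hB : 0 ≤ B) (hg : ∀ ω, g ω ≤ B) (Φ : Finset Z → ℝ)
    (hΦ : ∀ K', 0 ≤ Φ K')
    (hgood : ∀ E1 K1 m, m ∈ Ms → (∀ ω ∈ E1, col ω = m) → Spread O ρ l E1 K1 c →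
      ∑ ω ∈ E1, g ω ≤ E1.card * Φ K1)
    (E : Finset Ω) (hK : ∀ ω ∈ E, K ⊆ O ω) :
    ∃ κ : Ω → Finset Z, (∀ ω ∈ E, K ⊆ κ ω ∧ κ ω ⊆ O ω ∧ (κ ω).card ≤ l) ∧
      ∑ ω ∈ E, g ω ≤ ∑ ω ∈ E, Φ (κ ω) + Ms.card * τ * B := by
  have hΩ : (0 : ℝ) < Fintype.card Ω := by exact_mod_cast Fintype.card_pos
  have hc0 : 0 < c := lt_of_lt_of_le (by positivity) hc
  induction E using Finset.strongInduction with
  | H E ih =>
    by_cases h : ∃ m ∈ Ms, τ ≤ (E.filter fun ω => col ω = m).card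
    · obtain ⟨m, hm, hτm⟩ := h
      obtain ⟨K', hK', hs⟩ := exists_spread hρ hup hc (E.filter fun ω => col ω = m) K
        (fun ω hω => hK ω (mem_filter.1 hω).1) hl (hτ.trans hτm)
      obtain ⟨E1, hE1⟩ : ∃ E1, E1 = (E.filter fun ω => col ω = m).filter fun ω => K' ⊆ O ω :=
        ⟨_, rfl⟩
      rw [← hE1] at hs
      have h1 : E1 ⊆ E := hE1 ▸ (filter_subset _ _).trans (filter_subset _ _)
      have h2 : E1.Nonempty := by
        have h3 : (0 : ℝ) < E1.card := lt_of_lt_of_le (by positivity) hs.big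
        exact card_pos.1 (by exact_mod_cast h3)
      obtain ⟨κ, hκ, hle⟩ := ih (E \ E1) (sdiff_ssubset h1 h2)
        fun ω hω => hK ω (mem_sdiff.1 hω).1
      have h3 := hgood E1 K' m hm (fun ω hω => by
        rw [hE1] at hω
        exact (mem_filter.1 (mem_filter.1 hω).1).2) hs
      refine ⟨fun ω => if ω ∈ E1 then K' else κ ω, fun ω hω => ?_, ?_⟩
      · by_cases h4 : ω ∈ E1
        · simp only [h4, if_true]
          exact ⟨hK', hs.sub ω h4, hs.small⟩
        · simp only [h4, if_false]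
          exact hκ ω (mem_sdiff.2 ⟨hω, h4⟩)
      · rw [← sum_sdiff h1, ← sum_sdiff h1]
        have e1 : ∑ ω ∈ E \ E1, Φ (if ω ∈ E1 then K' else κ ω) = ∑ ω ∈ E \ E1, Φ (κ ω) :=
          sum_congr rfl fun ω hω => by rw [if_neg (mem_sdiff.1 hω).2]
        have e2 : ∑ ω ∈ E1, Φ (if ω ∈ E1 then K' else κ ω) = E1.card * Φ K' := by
          rw [sum_congr rfl fun ω hω => by rw [if_pos hω], sum_const, nsmul_eq_mul]
        rw [e1, e2]
        linarith
    · push Not at h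
      refine ⟨fun _ => K, fun ω hω => ⟨subset_rfl, hK ω hω, hl⟩, ?_⟩
      have h1 : (E.card : ℝ) ≤ Ms.card * τ := by
        rw [card_eq_sum_card_fiberwise (f := col) (t := Ms) fun ω _ => hcol ω, ← nsmul_eq_mul]
        push_cast
        exact sum_le_card_nsmul _ _ _ fun m hm => (h m hm).le
      have h2 : ∑ ω ∈ E, g ω ≤ E.card * B := by
        rw [← nsmul_eq_mul]
        exact sum_le_card_nsmul _ _ _ fun ω _ => hg ω
      have h3 : 0 ≤ ∑ _ω ∈ E, Φ K := sum_nonneg fun _ _ => hΦ K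
      have h4 := mul_le_mul_of_nonneg_right h1 hB
      linarith

end Pool.Agent.MP_36f78e_lc.H44
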