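import Mathlib

/-!
Random subsets with independent elements, and the planting estimate.
-/

set_option linter.unusedSectionVars false

namespace Pool.Agent.MP_36f78e_lc.H44

open Finset

variable {Z : Type} [Fintype Z] [DecidableEq Z]

/-- The weight of a subset. -/
noncomputable def wt (p : ℝ) (J : Finset Z) : ℝ := ∏ z, if z ∈ J then p else 1 - p

/-- Expectation over a random subset of density `p`. -/
noncomputable def EJ (p : ℝ) (F : Finset Z → ℝ) : ℝ := ∑ J, wt p J * F J

variable {p : ℝ}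

lemma wt_nonneg (h0 : 0 ≤ p) (h1 : p ≤ 1) (J : Finset Z) : 0 ≤ wt p J :=
  prod_nonneg fun z _ => by split_ifs <;> linarith

lemma EJ_mono (h0 : 0 ≤ p) (h1 : p ≤ 1) {F G : Finset Z → ℝ} (h : ∀ J, F J ≤ G J) :
    EJ p F ≤ EJ p G :=
  sum_le_sum fun J _ => mul_le_mul_of_nonneg_left (h J) (wt_nonneg h0 h1 J)

lemma EJ_add (F G : Finset Z → ℝ) : EJ p (fun J => F J + G J) = EJ p F + EJ p G := by
  simp only [EJ, mul_add, sum_add_distrib]

lemma EJ_mul (c : ℝ) (F : Finset Z → ℝ) : EJ p (fun J => c * F J) = c * EJ p F := by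
  simp only [EJ, mul_sum, mul_left_comm]

lemma EJ_sum {ι : Type} (s : Finset ι) (F : ι → Finset Z → ℝ) :
    EJ p (fun J => ∑ i ∈ s, F i J) = ∑ i ∈ s, EJ p (F i) := by
  simp only [EJ, mul_sum]
  exact sum_comm

lemma sum_wt : ∑ J : Finset Z, wt p J = 1 := by
  have h := Fintype.prod_add (fun _ : Z => p) fun _ => 1 - p
  simp only [add_sub_cancel, prod_const_one] at h
  rw [h]
  refine sum_congr rfl fun J _ => ?_
  rw [wt, prod_ite]
  congr 2
  · ext z; simp
  · ext z; simp

lemma EJ_const (c : ℝ) : EJ p (fun _ : Finset Z => c) = c := by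
  simp only [EJ, ← sum_mul, sum_wt, one_mul]

lemma EJ_nonneg (h0 : 0 ≤ p) (h1 : p ≤ 1) {F : Finset Z → ℝ} (h : ∀ J, 0 ≤ F J) : 0 ≤ EJ p F := by
  rw [← EJ_const (Z := Z) (p := p) 0]
  exact EJ_mono h0 h1 h

lemma plant_one (u : Z) (F : Finset Z → ℝ) :
    p * EJ p (fun J => F (insert u J)) = EJ p fun J => if u ∈ J then F J else 0 := by
  set r : Finset Z → ℝ := fun J => ∏ z ∈ univ.erase u, if z ∈ J then p else 1 - p with hr
  have hw : ∀ J, wt p J = (if u ∈ J then p else 1 - p) * r J := fun J =>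
    (mul_prod_erase univ (fun z => if z ∈ J then p else 1 - p) (mem_univ u)).symm
  have hinv : Function.Involutive fun J : Finset Z => if u ∈ J then J.erase u else insert u J := by
    intro J
    by_cases h : u ∈ J
    · simp [h]
    · simp [h, erase_insert h]
  have h1 : ∑ J, (if u ∈ J then 0 else r J * F (insert u J)) =
      ∑ J, if u ∈ J then r J * F J else 0 := by
    rw [← Equiv.sum_comp hinv.toPerm]
    refine sum_congr rfl fun J _ => ?_
    by_cases h : u ∈ J
    · have e : r (J.erase u) = r J := prod_congr rfl fun z hz => by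
        simp [mem_erase, (mem_erase.1 hz).1]
      simp [h, e]
    · simp [h]
  have h2 : EJ p (fun J => F (insert u J)) = ∑ J, if u ∈ J then r J * F J else 0 := by
    have h3 : ∀ J, wt p J * F (insert u J) = p * (if u ∈ J then r J * F J else 0) +
        (1 - p) * (if u ∈ J then 0 else r J * F (insert u J)) := fun J => by
      rw [hw]
      by_cases h : u ∈ J
      · simp [h, mul_assoc]
      · simp [h, mul_assoc]
    simp only [EJ, h3, sum_add_distrib, ← mul_sum, h1]
    ring
  rw [h2, mul_sum, EJ]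
  refine sum_congr rfl fun J _ => ?_
  rw [hw]
  by_cases h : u ∈ J
  · simp [h, mul_assoc]
  · simp [h]

lemma plant_set (T : Finset Z) (F : Finset Z → ℝ) :
    p ^ T.card * EJ p (fun J => F (T ∪ J)) = EJ p fun J => if T ⊆ J then F J else 0 := by
  induction T using Finset.induction_on generalizing F with
  | empty => simp
  | insert u T hu ih =>
    have h1 := plant_one (p := p) u fun J => F (T ∪ J)
    have h2 := ih fun J => if u ∈ J then F J else 0
    have e1 : (fun J => F (insert u T ∪ J)) = fun J => F (T ∪ insert u J) := by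
      funext J; rw [insert_union, union_insert]
    have e2 : (fun J : Finset Z => if u ∈ T ∪ J then F (T ∪ J) else 0) =
        fun J => if u ∈ J then F (T ∪ J) else 0 := by
      funext J; simp [hu]
    rw [card_insert_of_notMem hu, pow_succ, mul_assoc, e1, h1, ← e2, h2]
    congr 1
    funext J
    by_cases h3 : T ⊆ J <;> by_cases h4 : u ∈ J <;> simp [h3, h4, insert_subset_iff]

lemma EJ_subset (T : Finset Z) : EJ p (fun J => if T ⊆ J then 1 else 0) = p ^ T.card := by
  rw [← plant_set T fun _ => 1, EJ_const, mul_one]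

lemma EJ_mem (u : Z) : EJ p (fun J : Finset Z => if u ∈ J then 1 else 0) = p := by
  rw [← plant_one u fun _ => 1, EJ_const, mul_one]

/-- A spread mixture of small planted sets is close to the unplanted distribution. -/
theorem plant {Ω : Type} (h0 : 0 < p) (h1 : p ≤ 1) (E : Finset Ω) (T : Ω → Finset Z) {ρ δ M : ℝ}
    (hρ : 0 ≤ ρ) (hδ : 0 < δ) {l : ℕ} (hT : ∀ ω ∈ E, (T ω).card ≤ l)
    (hs : ∀ Y : Finset Z, Y.card ≤ l → ∑ ω ∈ E, (if Y ⊆ T ω then 1 else 0 : ℝ) ≤
      ρ ^ Y.card * E.card) (hl : (1 + ρ / p) ^ l ≤ 1 + 4 * δ ^ 2)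
    (F : Finset Z → ℝ) (hF0 : ∀ J, 0 ≤ F J) (hF1 : ∀ J, F J ≤ M) :
    ∑ ω ∈ E, EJ p (fun J => F (T ω ∪ J)) ≤ E.card * (EJ p F + 2 * δ * M) := by
  rcases E.eq_empty_or_nonempty with rfl | hE
  · simp
  have hM : 0 ≤ M := (hF0 ∅).trans (hF1 ∅)
  obtain ⟨n, hn⟩ : ∃ n : ℝ, n = E.card := ⟨_, rfl⟩
  rw [← hn] at hs ⊢
  have hn0 : 0 < n := by rw [hn]; exact_mod_cast hE.card_pos
  set L : Ω → Finset Z → ℝ := fun ω J => (1 / p) ^ (T ω).card * if T ω ⊆ J then 1 else 0 with hL
  set W : Finset Z → ℝ := fun J => ∑ ω ∈ E, L ω J with hW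
  have hp : ∀ k : ℕ, (1 / p) ^ k * p ^ k = 1 := fun k => by
    rw [← mul_pow, one_div_mul_cancel h0.ne', one_pow]
  have e1 : ∑ ω ∈ E, EJ p (fun J => F (T ω ∪ J)) = EJ p fun J => W J * F J := by
    simp only [hW, sum_mul]
    rw [EJ_sum]
    refine sum_congr rfl fun ω _ => ?_
    have e : (fun J => L ω J * F J) =
        fun J => (1 / p) ^ (T ω).card * if T ω ⊆ J then F J else 0 := by
      funext J; simp only [hL]; split_ifs <;> simp
    rw [e, EJ_mul, ← plant_set, ← mul_assoc, hp, one_mul]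
  have e2 : EJ p W = n := by
    rw [hW, EJ_sum, hn, card_eq_sum_ones]
    push_cast
    refine sum_congr rfl fun ω _ => ?_
    rw [hL, EJ_mul, EJ_subset, hp]
  have hq : 0 ≤ 1 / p - 1 := by
    rw [sub_nonneg, le_div_iff₀ h0]; linarith
  have e3 : EJ p (fun J => W J * W J) ≤ n * (n * (1 + 4 * δ ^ 2)) := by
    simp only [hW, sum_mul_sum]
    rw [EJ_sum]
    refine (sum_le_card_nsmul _ _ (n * (1 + 4 * δ ^ 2)) fun ω' hω' => ?_).trans
      (by rw [nsmul_eq_mul, hn])
    rw [EJ_sum]
    have e4 : ∀ ω, EJ p (fun J => L ω' J * L ω J) =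
        ∑ Y ∈ (T ω').powerset, (1 / p - 1) ^ Y.card * if Y ⊆ T ω then 1 else 0 := fun ω => by
      have e : (fun J => L ω' J * L ω J) = fun J => (1 / p) ^ ((T ω').card + (T ω).card) *
          if T ω' ∪ T ω ⊆ J then 1 else 0 := by
        funext J
        simp only [hL, union_subset_iff, pow_add]
        by_cases h3 : T ω' ⊆ J <;> by_cases h4 : T ω ⊆ J <;> simp [h3, h4]
      rw [e, EJ_mul, EJ_subset, ← card_union_add_card_inter, add_comm, pow_add, mul_assoc, hp,
        mul_one]
      have h5 := sum_pow_mul_eq_add_pow (1 / p - 1) (1 : ℝ) (T ω' ∩ T ω)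
      simp only [one_pow, mul_one, sub_add_cancel] at h5
      rw [← h5, ← sum_subset (powerset_mono.2 (inter_subset_left : T ω' ∩ T ω ⊆ T ω'))]
      · refine sum_congr rfl fun Y hY => ?_
        rw [if_pos ((mem_powerset.1 hY).trans inter_subset_right), mul_one]
      · intro Y hY hY'
        rw [if_neg fun h => hY' (mem_powerset.2 (subset_inter (mem_powerset.1 hY) h)), mul_zero]
    simp only [e4]
    rw [sum_comm]
    calc _ ≤ ∑ Y ∈ (T ω').powerset, (ρ / p) ^ Y.card * 1 ^ ((T ω').card - Y.card) * n := by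
          refine sum_le_sum fun Y hY => ?_
          rw [← mul_sum, one_pow, mul_one]
          have h6 := hs Y ((card_le_card (mem_powerset.1 hY)).trans (hT ω' hω'))
          calc _ ≤ (1 / p - 1) ^ Y.card * (ρ ^ Y.card * n) :=
                mul_le_mul_of_nonneg_left h6 (pow_nonneg hq _)
            _ ≤ (1 / p) ^ Y.card * (ρ ^ Y.card * n) := mul_le_mul_of_nonneg_right
                (pow_le_pow_left₀ hq (by linarith) _) (by positivity)
            _ = _ := by rw [← mul_assoc, ← mul_pow]; congr 2; ring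
      _ = (ρ / p + 1) ^ (T ω').card * n := by rw [← sum_mul, sum_pow_mul_eq_add_pow]
      _ ≤ (1 + 4 * δ ^ 2) * n := by
          refine mul_le_mul_of_nonneg_right (le_trans ?_ hl) hn0.le
          rw [add_comm]
          exact pow_le_pow_right₀ (by have := div_nonneg hρ h0.le; linarith) (hT ω' hω')
      _ = _ := mul_comm _ _
  have e5 : ∀ J, W J * F J ≤ n * F J + (M * (δ * n + n / (4 * δ)) +
      (M / (4 * δ * n) * (W J * W J) + (-(M / (2 * δ))) * W J)) := fun J => by
    have h3 : |W J - n| ≤ δ * n + (W J - n) ^ 2 / (4 * δ * n) := by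
      have h4 : 0 ≤ (|W J - n| - 2 * δ * n) ^ 2 / (4 * δ * n) := by positivity
      have h5 : (|W J - n| - 2 * δ * n) ^ 2 / (4 * δ * n) =
          δ * n + |W J - n| ^ 2 / (4 * δ * n) - |W J - n| := by
        field_simp
        ring
      rw [sq_abs] at h5
      linarith
    have h4 : (W J - n) * F J ≤ |W J - n| * M :=
      (mul_le_mul_of_nonneg_right (le_abs_self _) (hF0 J)).trans
        (mul_le_mul_of_nonneg_left (hF1 J) (abs_nonneg _))
    have h5 := mul_le_mul_of_nonneg_right h3 hM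
    have h6 : (δ * n + (W J - n) ^ 2 / (4 * δ * n)) * M = M * (δ * n + n / (4 * δ)) +
        (M / (4 * δ * n) * (W J * W J) + (-(M / (2 * δ))) * W J) := by
      field_simp
      ring
    linarith
  rw [e1]
  refine (EJ_mono h0.le h1 e5).trans ?_
  rw [EJ_add, EJ_add, EJ_add, EJ_mul, EJ_const, EJ_mul, EJ_mul, e2]
  have h7 := mul_le_mul_of_nonneg_left e3 (by positivity : 0 ≤ M / (4 * δ * n))
  have h8 : M * (δ * n + n / (4 * δ)) + (M / (4 * δ * n) * (n * (n * (1 + 4 * δ ^ 2))) +
      -(M / (2 * δ)) * n) = n * (2 * δ * M) := by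
    field_simp
    ring
  linarith

end Pool.Agent.MP_36f78e_lc.H44
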