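import Mathlib
import Pool.Agent.MP_36f78e_lc.H24.Cl.Defs

/-!
Interactive proofs with a quantum verifier and classical messages, relative to a classical oracle.
-/

namespace Pool.Agent.MP_36f78e_lc.H44

open Pool.Agent.MP_36f78e_lc.H24.Cl Matrix

/-- One round on the wires `α`: the verifier applies `gates`, measures the wires `out` and sends
the outcome to the prover, whose classical reply is added modulo two to the wires `inp`.  A
message is written as the set of wires that carry a one. -/
structure Round (α : Type) where
  gates : List (Gate α)
  out : Finset α
  inp : Finset α

/-- The part of the vector `v` in which the wires `out` carry a one exactly on `y`. -/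
def proj {α : Type} [DecidableEq α] (out y : Finset α) (v : (α → Bool) → ℂ) : (α → Bool) → ℂ :=
  fun z => if out.filter (fun i => z i = true) = y then v z else 0

/-- Flip the wires in `s`. -/
def flip {α : Type} [DecidableEq α] (s : Finset α) (v : (α → Bool) → ℂ) : (α → Bool) → ℂ :=
  fun z => v fun i => if i ∈ s then !z i else z i

/-- The probability of a final outcome in `acc` when the rounds are played from the vector `v`
against the prover `P`, which maps the list of messages received so far to its reply. -/
noncomputable def play {α : Type} [Fintype α] [DecidableEq α] (A : List Bool → Bool)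
    (acc : Finset (α → Bool)) :
    List (Round α) → (List (Finset α) → Finset α) → ((α → Bool) → ℂ) → ℝ
  | [], _, v => ∑ z ∈ acc, ‖v z‖ ^ 2
  | r :: rs, P, v => ∑ y ∈ r.out.powerset, play A acc rs (fun h => P (y :: h))
      (flip (P [y] ∩ r.inp) (proj r.out y (r.gates.foldl (fun v g => act A g v) v)))

/-- An interactive verifier for one fixed input: `q` qubits, a list of rounds, and the accepting
outcomes of the final measurement in the computational basis. -/
structure Protocol where
  q : ℕ
  rounds : List (Round (Fin q))
  acc : Finset (Fin q → Bool)

/-- Matrices are unitary, and the answer wire of an oracle call is not an input wire. -/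
def Protocol.Valid (V : Protocol) : Prop :=
  ∀ r ∈ V.rounds, (∀ U, Sum.inl U ∈ r.gates → U ∈ unitaryGroup (Fin V.q → Bool) ℂ) ∧
    ∀ l t, Sum.inr (l, t) ∈ r.gates → t ∉ l

/-- The number of rounds, plus the number of oracle calls, plus the number of bits the prover
sends. -/
def Protocol.cost (V : Protocol) : ℕ :=
  (V.rounds.map fun r => 1 + r.gates.countP Sum.isRight + r.inp.card).sum

/-- The acceptance probability against the prover `P`; all qubits start in state zero. -/
noncomputable def Protocol.accProb (V : Protocol) (A : List Bool → Bool)
    (P : List (Finset (Fin V.q)) → Finset (Fin V.q)) : ℝ :=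
  play A V.acc V.rounds P (Pi.single (fun _ => false) 1)

end Pool.Agent.MP_36f78e_lc.H44
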