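import Mathlib
import Pool.Agent.MP_36f78e_lc.H24.Cl.Main
import Pool.Agent.MP_36f78e_lc.H44.Defs

/-!
The value of the game played by the prover.
-/

set_option linter.unusedSectionVars false

namespace Pool.Agent.MP_36f78e_lc.H44

open Pool.Agent.MP_36f78e_lc.H24 Pool.Agent.MP_36f78e_lc.H24.Cl Finset Matrix

variable {α : Type} [Fintype α] [DecidableEq α]

/-- The value of the game. -/
noncomputable def gval (A : List Bool → Bool) (acc : Finset (α → Bool)) :
    List (Round α) → ((α → Bool) → ℂ) → ℝ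
  | [], v => ∑ z ∈ acc, ‖v z‖ ^ 2
  | r :: rs, v => ∑ y ∈ r.out.powerset, r.inp.powerset.sup' (powerset_nonempty _) fun s =>
      gval A acc rs (flip s (proj r.out y (run A r.gates v)))

/-- The best value after the verifier message has been fixed. -/
noncomputable def best (A : List Bool → Bool) (acc : Finset (α → Bool)) (inp : Finset α)
    (rs : List (Round α)) (u : (α → Bool) → ℂ) : ℝ :=
  inp.powerset.sup' (powerset_nonempty _) fun s => gval A acc rs (flip s u)

lemma gval_cons (A : List Bool → Bool) (acc : Finset (α → Bool)) (r : Round α)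
    (rs : List (Round α)) (v : (α → Bool) → ℂ) :
    gval A acc (r :: rs) v =
      ∑ y ∈ r.out.powerset, best A acc r.inp rs (proj r.out y (run A r.gates v)) := rfl

lemma le_best (A : List Bool → Bool) (acc : Finset (α → Bool)) {inp s : Finset α} (hs : s ⊆ inp)
    (rs : List (Round α)) (u : (α → Bool) → ℂ) : gval A acc rs (flip s u) ≤ best A acc inp rs u :=
  le_sup' (fun s => gval A acc rs (flip s u)) (mem_powerset.2 hs)

lemma exists_best (A : List Bool → Bool) (acc : Finset (α → Bool)) (inp : Finset α)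
    (rs : List (Round α)) (u : (α → Bool) → ℂ) :
    ∃ s ⊆ inp, best A acc inp rs u = gval A acc rs (flip s u) := by
  obtain ⟨s, hs, h⟩ := exists_mem_eq_sup' (powerset_nonempty inp)
    fun s => gval A acc rs (flip s u)
  exact ⟨s, mem_powerset.1 hs, h⟩

lemma play_le_gval (A : List Bool → Bool) (acc : Finset (α → Bool)) (rs : List (Round α))
    (P : List (Finset α) → Finset α) (v : (α → Bool) → ℂ) :
    play A acc rs P v ≤ gval A acc rs v := by
  induction rs generalizing P v with
  | nil => exact le_rfl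
  | cons r rs ih =>
    rw [gval_cons]
    exact sum_le_sum fun y _ => (ih _ _).trans (le_best A acc inter_subset_right rs _)

lemma exists_play (A : List Bool → Bool) (acc : Finset (α → Bool)) (rs : List (Round α))
    (s0 : Finset α) (v : (α → Bool) → ℂ) :
    ∃ P : List (Finset α) → Finset α, P [] = s0 ∧ gval A acc rs v ≤ play A acc rs P v := by
  induction rs generalizing s0 v with
  | nil => exact ⟨fun _ => s0, rfl, le_rfl⟩
  | cons r rs ih =>
    choose s hs he using fun y => exists_best A acc r.inp rs (proj r.out y (run A r.gates v))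
    choose P hP hle using fun y => ih (s y) (flip (s y) (proj r.out y (run A r.gates v)))
    refine ⟨fun h => match h with
      | [] => s0
      | y :: h' => P y h', rfl, ?_⟩
    rw [gval_cons]
    refine sum_le_sum fun y _ => ?_
    rw [he y]
    refine (hle y).trans (le_of_eq ?_)
    change _ = play A acc rs (fun h => P y h) (flip (P y [] ∩ r.inp) _)
    rw [hP y, inter_eq_left.2 (hs y)]
    rfl

lemma nsq_flip (s : Finset α) (v : (α → Bool) → ℂ) : nsq (flip s v) = nsq v := by
  have hinv : Function.Involutive fun z : α → Bool => fun i => if i ∈ s then !z i else z i :=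
    fun z => by
      funext i
      by_cases h : i ∈ s <;> simp [h]
  rw [← nr_sq, ← nr_sq]
  exact congrArg (· ^ 2) (nr_comp_equiv hinv.toPerm v)

lemma flip_sub (s : Finset α) (u v : (α → Bool) → ℂ) : flip s (u - v) = flip s u - flip s v := rfl

lemma proj_sub (out y : Finset α) (u v : (α → Bool) → ℂ) :
    proj out y (u - v) = proj out y u - proj out y v := by
  funext z
  simp only [proj, Pi.sub_apply]
  split_ifs <;> simp

lemma sum_nsq_proj (out : Finset α) (v : (α → Bool) → ℂ) :
    ∑ y ∈ out.powerset, nsq (proj out y v) = nsq v := by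
  unfold nsq
  rw [sum_comm]
  refine sum_congr rfl fun z _ => ?_
  rw [sum_eq_single_of_mem (out.filter fun i => z i = true) (mem_powerset.2 (filter_subset _ _))]
  · simp [proj]
  · intro y _ hy
    simp [proj, hy.symm]

/-- All gates are valid. -/
def RV (rs : List (Round α)) : Prop := ∀ r ∈ rs, ∀ g ∈ r.gates, GV g

lemma RV.tail {r : Round α} {rs : List (Round α)} (h : RV (r :: rs)) : RV rs :=
  fun r' hr => h r' (List.mem_cons_of_mem _ hr)

lemma RV.head {r : Round α} {rs : List (Round α)} (h : RV (r :: rs)) : ∀ g ∈ r.gates, GV g :=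
  h r List.mem_cons_self

lemma nsq_run (A : List Bool → Bool) (gs : List (Gate α)) (h : ∀ g ∈ gs, GV g)
    (v : (α → Bool) → ℂ) : nsq (run A gs v) = nsq v := by
  rw [← nr_sq, nr_run A gs h, nr_sq]

lemma gval_nonneg (A : List Bool → Bool) (acc : Finset (α → Bool)) (rs : List (Round α))
    (v : (α → Bool) → ℂ) : 0 ≤ gval A acc rs v := by
  induction rs generalizing v with
  | nil => exact sum_nonneg fun _ _ => sq_nonneg _
  | cons r rs ih =>
    rw [gval_cons]
    exact sum_nonneg fun y _ => (ih _).trans (le_best A acc (empty_subset _) rs _)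

lemma best_nonneg (A : List Bool → Bool) (acc : Finset (α → Bool)) (inp : Finset α)
    (rs : List (Round α)) (u : (α → Bool) → ℂ) : 0 ≤ best A acc inp rs u :=
  (gval_nonneg A acc rs _).trans (le_best A acc (empty_subset _) rs _)

lemma gval_le (A : List Bool → Bool) (acc : Finset (α → Bool)) (rs : List (Round α)) (h : RV rs)
    (v : (α → Bool) → ℂ) : gval A acc rs v ≤ nsq v := by
  induction rs generalizing v with
  | nil => exact sum_le_sum_of_subset_of_nonneg (subset_univ _) fun _ _ _ => sq_nonneg _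
  | cons r rs ih =>
    rw [gval_cons, ← nsq_run A r.gates h.head v, ← sum_nsq_proj r.out]
    refine sum_le_sum fun y _ => ?_
    obtain ⟨s, -, e⟩ := exists_best A acc r.inp rs (proj r.out y (run A r.gates v))
    rw [e, ← nsq_flip s]
    exact ih h.tail _

lemma best_le (A : List Bool → Bool) (acc : Finset (α → Bool)) (inp : Finset α)
    (rs : List (Round α)) (h : RV rs) (u : (α → Bool) → ℂ) : best A acc inp rs u ≤ nsq u := by
  obtain ⟨s, -, e⟩ := exists_best A acc inp rs u
  rw [e, ← nsq_flip s]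
  exact gval_le A acc rs h _

lemma normsq_le (a b : ℂ) {ε : ℝ} (hε : 0 < ε) :
    ‖b‖ ^ 2 ≤ ‖a‖ ^ 2 + ε * ‖a‖ ^ 2 + (1 + 1 / ε) * ‖b - a‖ ^ 2 := by
  have h1 : ‖b‖ ≤ ‖a‖ + ‖b - a‖ := by
    simpa using norm_add_le a (b - a)
  have h2 : ‖b‖ ^ 2 ≤ (‖a‖ + ‖b - a‖) ^ 2 := pow_le_pow_left₀ (norm_nonneg _) h1 2
  have h3 : 2 * ‖a‖ * ‖b - a‖ ≤ ε * ‖a‖ ^ 2 + 1 / ε * ‖b - a‖ ^ 2 := by
    have h4 : 0 ≤ (ε * ‖a‖ - ‖b - a‖) ^ 2 / ε := by positivity
    have h5 : (ε * ‖a‖ - ‖b - a‖) ^ 2 / ε =
        ε * ‖a‖ ^ 2 + 1 / ε * ‖b - a‖ ^ 2 - 2 * ‖a‖ * ‖b - a‖ := by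
      field_simp
      ring
    linarith
  nlinarith

lemma gval_lip (A : List Bool → Bool) (acc : Finset (α → Bool)) (rs : List (Round α)) (h : RV rs)
    {ε : ℝ} (hε : 0 < ε) (u v : (α → Bool) → ℂ) :
    gval A acc rs v ≤ gval A acc rs u + ε * nsq u + (1 + 1 / ε) * nsq (v - u) := by
  induction rs generalizing u v with
  | nil =>
    have h1 : ∑ z ∈ acc, ‖u z‖ ^ 2 ≤ nsq u :=
      sum_le_sum_of_subset_of_nonneg (subset_univ _) fun _ _ _ => sq_nonneg _
    have h2 : ∑ z ∈ acc, ‖(v - u) z‖ ^ 2 ≤ nsq (v - u) :=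
      sum_le_sum_of_subset_of_nonneg (subset_univ _) fun _ _ _ => sq_nonneg _
    have h3 : ∑ z ∈ acc, ‖v z‖ ^ 2 ≤ ∑ z ∈ acc, ‖u z‖ ^ 2 + ε * ∑ z ∈ acc, ‖u z‖ ^ 2 +
        (1 + 1 / ε) * ∑ z ∈ acc, ‖(v - u) z‖ ^ 2 := by
      rw [mul_sum, mul_sum, ← sum_add_distrib, ← sum_add_distrib]
      exact sum_le_sum fun z _ => normsq_le _ _ hε
    have h4 := mul_le_mul_of_nonneg_left h1 hε.le
    have h5 := mul_le_mul_of_nonneg_left h2 (by positivity : 0 ≤ 1 + 1 / ε)
    simp only [gval]
    linarith
  | cons r rs ih =>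
    rw [gval_cons, gval_cons, ← nsq_run A r.gates h.head u, ← nsq_run A r.gates h.head (v - u),
      ← sum_nsq_proj r.out, ← sum_nsq_proj r.out (run A r.gates (v - u)), mul_sum, mul_sum,
      ← sum_add_distrib, ← sum_add_distrib]
    refine sum_le_sum fun y _ => ?_
    obtain ⟨s, hs, e⟩ := exists_best A acc r.inp rs (proj r.out y (run A r.gates v))
    have h1 := ih h.tail (flip s (proj r.out y (run A r.gates u)))
      (flip s (proj r.out y (run A r.gates v)))
    rw [← flip_sub, ← proj_sub, ← run_sub, nsq_flip, nsq_flip] at h1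
    have h2 := le_best A acc hs rs (proj r.out y (run A r.gates u))
    rw [e]
    linarith

/-- The value after the gates of a round. -/
noncomputable def mid (A : List Bool → Bool) (acc : Finset (α → Bool)) (r : Round α)
    (rs : List (Round α)) (u : (α → Bool) → ℂ) : ℝ :=
  ∑ y ∈ r.out.powerset, best A acc r.inp rs (proj r.out y u)

lemma gval_mid (A : List Bool → Bool) (acc : Finset (α → Bool)) (r : Round α)
    (rs : List (Round α)) (v : (α → Bool) → ℂ) :
    gval A acc (r :: rs) v = mid A acc r rs (run A r.gates v) := rfl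

lemma mid_lip (A : List Bool → Bool) (acc : Finset (α → Bool)) (r : Round α)
    (rs : List (Round α)) (h : RV rs) {ε : ℝ} (hε : 0 < ε) (u v : (α → Bool) → ℂ) :
    mid A acc r rs v ≤ mid A acc r rs u + ε * nsq u + (1 + 1 / ε) * nsq (v - u) := by
  have hv : RV (⟨[], r.out, r.inp⟩ :: rs) := by
    intro r' hr' g hg
    rcases List.mem_cons.1 hr' with rfl | hr'
    · cases hg
    · exact h r' hr' g hg
  exact gval_lip A acc _ hv hε u v

lemma gval_congr (acc : Finset (α → Bool)) (rs : List (Round α)) :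
    ∃ b : ℕ, ∀ A A' : List Bool → Bool, (∀ s, s.length < b → A s = A' s) →
      ∀ v, gval A acc rs v = gval A' acc rs v := by
  induction rs with
  | nil => exact ⟨0, fun _ _ _ _ => rfl⟩
  | cons r rs ih =>
    obtain ⟨b, hb⟩ := ih
    obtain ⟨c, hc⟩ := run_congr r.gates
    refine ⟨max b c, fun A A' h v => ?_⟩
    have h1 := hb A A' fun s hs => h s (lt_max_of_lt_left hs)
    have h2 := hc A A' fun s hs => h s (lt_max_of_lt_right hs)
    simp only [gval, h1, h2]

lemma sq_le_of_forall {x M T : ℝ} (hx : 0 ≤ x) (hM : 0 ≤ M) (hT : 0 ≤ T)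
    (h : ∀ ε, 0 < ε → x ≤ M / ε + ε * T) : x ^ 2 ≤ 4 * T * M := by
  rcases hx.eq_or_lt with rfl | hx
  · simp only [ne_eq, OfNat.ofNat_ne_zero, not_false_eq_true, zero_pow]
    positivity
  rcases hT.eq_or_lt with rfl | hT
  · have h1 := h (2 * M / x + 1) (by positivity)
    rw [mul_zero, add_zero, le_div_iff₀ (by positivity)] at h1
    have h2 : x * (2 * M / x + 1) = 2 * M + x := by field_simp
    linarith
  · have h1 := h (x / (2 * T)) (by positivity)
    have h2 : M / (x / (2 * T)) = 2 * T * M / x := by field_simp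
    have h3 : x / (2 * T) * T = x / 2 := by field_simp
    rw [h2, h3] at h1
    have h4 : x / 2 ≤ 2 * T * M / x := by linarith
    rw [le_div_iff₀ hx] at h4
    nlinarith

/-- The hybrid argument in squared form, for a family of oracles indexed by finite sets. -/
lemma hyb {Z : Type} [Fintype Z] [DecidableEq Z] (Or : Finset Z → List Bool → Bool)
    (enc : Z → List Bool) (henc : Function.Injective enc)
    (hOr : ∀ K S : Finset Z, K ⊆ S → ∀ s ∉ (S \ K).image enc, Or K s = Or S s)
    (gs : List (Gate α)) (h : ∀ g ∈ gs, GV g) {T : ℝ} (hT : (gs.countP Sum.isRight : ℝ) ≤ T)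
    (K : Finset Z) (v : (α → Bool) → ℂ) :
    ∃ μ : Z → ℝ, (∀ u, 0 ≤ μ u) ∧ ∑ u, μ u ≤ 4 * T ^ 2 * nsq v ∧
      ∀ S, K ⊆ S → nsq (run (Or K) gs v - run (Or S) gs v) ≤ ∑ u ∈ S \ K, μ u := by
  have hT0 : (0 : ℝ) ≤ gs.countP Sum.isRight := Nat.cast_nonneg _
  refine ⟨fun u => 4 * T * mass (Or K) gs v (enc u), fun u =>
    mul_nonneg (by linarith) (mass_nonneg _ _ _ _), ?_, fun S hS => ?_⟩
  · have h1 := sum_mass_le (Or K) gs h v (univ.image enc)
    rw [sum_image henc.injOn] at h1
    rw [← mul_sum]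
    have h2 := mul_le_mul_of_nonneg_right hT (nsq_nonneg v)
    calc _ ≤ 4 * T * (T * nsq v) := mul_le_mul_of_nonneg_left (h1.trans h2) (by linarith)
      _ = _ := by ring
  · have h1 := sq_le_of_forall (nr_nonneg _)
      (sum_nonneg fun s _ => mass_nonneg (Or K) gs v s) hT0
      fun ε hε => hybrid (hOr K S hS) hε gs h v
    rw [nr_sq, sum_image henc.injOn] at h1
    rw [← mul_sum]
    exact h1.trans (mul_le_mul_of_nonneg_right (by linarith)
      (sum_nonneg fun u _ => mass_nonneg _ _ _ _))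

end Pool.Agent.MP_36f78e_lc.H44
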