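import Mathlib
import Pool.Agent.MP_36f78e_lc.H44.Val
import Pool.Agent.MP_36f78e_lc.H44.Junk
import Pool.Agent.MP_36f78e_lc.H44.Decomp

/-!
A prover for the structured sets can be simulated on random junk.
-/

set_option linter.unusedSectionVars false

namespace Pool.Agent.MP_36f78e_lc.H44

open Pool.Agent.MP_36f78e_lc.H24 Pool.Agent.MP_36f78e_lc.H24.Cl Finset

variable {α : Type} [Fintype α] [DecidableEq α]
variable {Z Ω : Type} [Fintype Z] [DecidableEq Z] [Fintype Ω] [DecidableEq Ω] [Nonempty Ω]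

/-- The factor lost in the size of the event. -/
noncomputable def shrink (η : ℝ) (rs : List (Round α)) : ℝ :=
  (rs.map fun r => η / 2 ^ r.inp.card).prod

lemma shrink_cons (η : ℝ) (r : Round α) (rs : List (Round α)) :
    shrink η (r :: rs) = η / 2 ^ r.inp.card * shrink η rs := by
  simp [shrink]

lemma shrink_mem {η : ℝ} (h0 : 0 ≤ η) (h1 : η ≤ 1) (rs : List (Round α)) :
    0 ≤ shrink η rs ∧ shrink η rs ≤ 1 := by
  induction rs with
  | nil => simp [shrink]
  | cons r rs ih =>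
    rw [shrink_cons]
    have h2 : η / 2 ^ r.inp.card ≤ 1 := by
      rw [div_le_one (by positivity)]
      exact h1.trans (one_le_pow₀ (by norm_num))
    exact ⟨mul_nonneg (by positivity) ih.1, mul_le_one₀ h2 ih.1 ih.2⟩

lemma nsq_sub_comm {κ : Type} [Fintype κ] (u v : κ → ℂ) : nsq (u - v) = nsq (v - u) := by
  rw [← nr_sq, ← nr_sq, ← nr_neg, neg_sub]

variable {O : Ω → Finset Z} {ρ : ℝ} {l : ℕ} {p δ ε η T : ℝ}

/-- The exchange of one pair of messages. -/
lemma step_msg (Or : Finset Z → List Bool → Bool) (acc : Finset (α → Bool)) (hρ : 0 < ρ)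
    (hup : ∀ Y : Finset Z, Y.card ≤ 2 * l →
      ((univ.filter fun ω => Y ⊆ O ω).card : ℝ) ≤ (ρ / 2) ^ Y.card * Fintype.card Ω)
    (h0 : 0 < p) (h1 : p ≤ 1) (hδ : 0 < δ) (hl : (1 + ρ / p) ^ l ≤ 1 + 4 * δ ^ 2) (hη : 0 ≤ η)
    (rs : List (Round α)) (hv : RV rs) (inp : Finset α) {a c : ℝ} (ha : 0 ≤ a)
    (hc : (1 / 2) ^ l * Fintype.card Ω ≤ c * (η / 2 ^ inp.card))
    (ih : ∀ E K v, Spread O ρ l E K (c * (η / 2 ^ inp.card)) →
      ∑ ω ∈ E, gval (Or (O ω)) acc rs v ≤
        E.card * (EJ p (fun J => gval (Or (K ∪ J)) acc rs v) + a * nsq v))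
    (E : Finset Ω) (K : Finset Z) (hs : Spread O ρ l E K c) (u : (α → Bool) → ℂ) :
    ∑ ω ∈ E, best (Or (O ω)) acc inp rs u ≤
      E.card * (EJ p (fun J => best (Or (K ∪ J)) acc inp rs u) + (a + η + 2 * δ) * nsq u) := by
  choose col hcol he using fun ω => exists_best (Or (O ω)) acc inp rs u
  have hu := nsq_nonneg u
  obtain ⟨κ, hκ, hle⟩ := decomp (τ := η / 2 ^ inp.card * E.card) hρ hup hc K hs.small
    (by
      have := mul_le_mul_of_nonneg_left hs.big (by positivity : 0 ≤ η / 2 ^ inp.card)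
      linarith)
    inp.powerset col (fun ω => mem_powerset.2 (hcol ω))
    (fun ω => best (Or (O ω)) acc inp rs u) hu (fun ω => best_le _ _ _ _ hv u)
    (fun K' => EJ p (fun J => best (Or (K' ∪ J)) acc inp rs u) + a * nsq u)
    (fun K' => add_nonneg (EJ_nonneg h0.le h1 fun J => best_nonneg _ _ _ _ _) (by positivity))
    (fun E1 K1 m hm hcm hs1 => by
      have h2 := ih E1 K1 (flip m u) hs1
      rw [nsq_flip] at h2
      rw [sum_congr rfl fun ω hω => by rw [he ω, hcm ω hω]]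
      refine h2.trans (mul_le_mul_of_nonneg_left ?_ (Nat.cast_nonneg _))
      have h3 := EJ_mono h0.le h1 fun J => le_best (Or (K1 ∪ J)) acc (mem_powerset.1 hm) rs u
      linarith) E hs.sub
  have h2 := plant h0 h1 E (fun ω => κ ω \ K) hρ.le hδ (l := l)
    (fun ω hω => (card_le_card sdiff_subset).trans (hκ ω hω).2.2)
    (fun Y hY => by
      by_cases hd : Disjoint Y K
      · refine le_trans ?_ (hs.spread Y hd hY)
        rw [card_filter]
        push_cast
        refine sum_le_sum fun ω hω => ?_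
        by_cases h3 : Y ⊆ κ ω \ K
        · rw [if_pos h3, if_pos (h3.trans (sdiff_subset.trans (hκ ω hω).2.1))]
        · rw [if_neg h3]
          split_ifs <;> norm_num
      · rw [sum_eq_zero fun ω _ => if_neg fun h => hd (subset_sdiff.1 h).2]
        positivity) hl
    (fun J => best (Or (K ∪ J)) acc inp rs u) (fun J => best_nonneg _ _ _ _ _)
    fun J => best_le _ _ _ _ hv u
  have e1 : ∑ ω ∈ E, EJ p (fun J => best (Or (K ∪ (κ ω \ K ∪ J))) acc inp rs u) =
      ∑ ω ∈ E, EJ p (fun J => best (Or (κ ω ∪ J)) acc inp rs u) :=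
    sum_congr rfl fun ω hω => by
      simp only [← union_assoc, union_sdiff_of_subset (hκ ω hω).1]
  rw [e1] at h2
  rw [sum_add_distrib, sum_const, nsmul_eq_mul, card_powerset] at hle
  have e2 : ((2 ^ inp.card : ℕ) : ℝ) * (η / 2 ^ inp.card * E.card) * nsq u =
      E.card * (η * nsq u) := by
    push_cast
    field_simp
  rw [e2] at hle
  linarith

lemma spread_mass (hρ : 0 < ρ) (hl1 : 1 ≤ l) {E : Finset Ω} {K : Finset Z} {c a : ℝ}
    (hs : Spread O ρ l E K c) {μ : Z → ℝ} (hμ0 : ∀ z, 0 ≤ μ z) (hμ1 : ∑ z, μ z ≤ 4 * T ^ 2 * a) :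
    ∑ ω ∈ E, ∑ z ∈ O ω \ K, μ z ≤ E.card * (4 * T ^ 2 * ρ * a) := by
  calc _ = ∑ ω ∈ E, ∑ z, μ z * if z ∈ O ω \ K then 1 else 0 := by
        refine sum_congr rfl fun ω _ => ?_
        simp only [mul_ite, mul_one, mul_zero, sum_ite_mem, univ_inter]
    _ ≤ ∑ z, μ z * (ρ * E.card) := by
        rw [sum_comm]
        refine sum_le_sum fun z _ => ?_
        rw [← mul_sum]
        refine mul_le_mul_of_nonneg_left ?_ (hμ0 z)
        by_cases hz : z ∈ K
        · rw [sum_eq_zero fun ω _ => if_neg fun h => (mem_sdiff.1 h).2 hz]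
          positivity
        · have h2 := hs.spread {z} (disjoint_singleton_left.2 hz) (by simpa using hl1)
          rw [card_singleton, pow_one, card_filter] at h2
          push_cast at h2
          refine le_trans (le_of_eq (sum_congr rfl fun ω _ => ?_)) h2
          simp [hz]
    _ ≤ 4 * T ^ 2 * a * (ρ * E.card) := by
        rw [← sum_mul]
        exact mul_le_mul_of_nonneg_right hμ1 (by positivity)
    _ = _ := by ring

/-- A prover for the known set is as good on the structured sets. -/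
theorem lift (Or : Finset Z → List Bool → Bool) (enc : Z → List Bool)
    (henc : Function.Injective enc)
    (hOr : ∀ K S : Finset Z, K ⊆ S → ∀ s ∉ (S \ K).image enc, Or K s = Or S s)
    (acc : Finset (α → Bool)) (hρ : 0 < ρ) (hl1 : 1 ≤ l) (hε : 0 < ε) {E : Finset Ω}
    {K : Finset Z} {c : ℝ} (hs : Spread O ρ l E K c) (rs : List (Round α)) (hv : RV rs)
    (hT : ∀ r ∈ rs, (r.gates.countP Sum.isRight : ℝ) ≤ T) (v : (α → Bool) → ℂ) :
    E.card * gval (Or K) acc rs v ≤ ∑ ω ∈ E, gval (Or (O ω)) acc rs v +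
      E.card * (rs.length * (ε + (1 + 1 / ε) * (4 * T ^ 2 * ρ)) * nsq v) := by
  obtain ⟨e, he⟩ : ∃ e, e = ε + (1 + 1 / ε) * (4 * T ^ 2 * ρ) := ⟨_, rfl⟩
  rw [← he]
  induction rs generalizing v with
  | nil => simp [gval]
  | cons r rs ih =>
    have ih' := ih hv.tail fun r' hr' => hT r' (List.mem_cons_of_mem _ hr')
    obtain ⟨u, hu⟩ : ∃ u, u = run (Or K) r.gates v := ⟨_, rfl⟩
    have hnu : nsq u = nsq v := by rw [hu, nsq_run _ _ hv.head]
    have s1 : E.card * mid (Or K) acc r rs u ≤ ∑ ω ∈ E, mid (Or (O ω)) acc r rs u +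
        E.card * (rs.length * e * nsq v) := by
      simp only [mid]
      rw [sum_comm, ← hnu, ← sum_nsq_proj r.out u, mul_sum, mul_sum, mul_sum, ← sum_add_distrib]
      refine sum_le_sum fun y _ => ?_
      obtain ⟨s, hsi, e1⟩ := exists_best (Or K) acc r.inp rs (proj r.out y u)
      have h2 := ih' (flip s (proj r.out y u))
      rw [nsq_flip] at h2
      have h3 := sum_le_sum (s := E) fun ω _ => le_best (Or (O ω)) acc hsi rs (proj r.out y u)
      rw [e1]
      linarith
    obtain ⟨μ, hμ0, hμ1, hμ⟩ := hyb Or enc henc hOr r.gates hv.head (hT r List.mem_cons_self) K v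
    rw [← hu] at hμ
    have hε1 : 0 ≤ 1 + 1 / ε := by positivity
    have s2 := mul_le_mul_of_nonneg_left (spread_mass hρ hl1 hs hμ0 hμ1) hε1
    have s3 : ∑ ω ∈ E, mid (Or (O ω)) acc r rs u ≤ ∑ ω ∈ E, gval (Or (O ω)) acc (r :: rs) v +
        E.card * (ε * nsq v) + (1 + 1 / ε) * ∑ ω ∈ E, ∑ z ∈ O ω \ K, μ z := by
      rw [← nsmul_eq_mul, ← sum_const, mul_sum, ← sum_add_distrib, ← sum_add_distrib]
      refine sum_le_sum fun ω hω => ?_
      have h2 := mid_lip (Or (O ω)) acc r rs hv.tail hε (run (Or (O ω)) r.gates v) u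
      rw [nsq_run _ _ hv.head] at h2
      have h3 := mul_le_mul_of_nonneg_left (hμ _ (hs.sub ω hω)) hε1
      rw [gval_mid]
      linarith
    rw [List.length_cons, gval_mid, ← hu]
    push_cast
    have e1 : (E.card : ℝ) * ((rs.length + 1) * e * nsq v) = E.card * (rs.length * e * nsq v) +
        E.card * (ε * nsq v) + (1 + 1 / ε) * (E.card * (4 * T ^ 2 * ρ * nsq v)) := by
      have : (rs.length + 1) * e = rs.length * e + (ε + (1 + 1 / ε) * (4 * T ^ 2 * ρ)) := by
        rw [← he]; ring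
      rw [this]
      ring
    rw [e1]
    linarith

theorem core (Or : Finset Z → List Bool → Bool) (enc : Z → List Bool)
    (henc : Function.Injective enc)
    (hOr : ∀ K S : Finset Z, K ⊆ S → ∀ s ∉ (S \ K).image enc, Or K s = Or S s)
    (acc : Finset (α → Bool)) (hρ : 0 < ρ)
    (hup : ∀ Y : Finset Z, Y.card ≤ 2 * l →
      ((univ.filter fun ω => Y ⊆ O ω).card : ℝ) ≤ (ρ / 2) ^ Y.card * Fintype.card Ω)
    (h0 : 0 < p) (h1 : p ≤ 1) (hδ : 0 < δ) (hl : (1 + ρ / p) ^ l ≤ 1 + 4 * δ ^ 2) (hl1 : 1 ≤ l)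
    (hη : 0 ≤ η) (hη1 : η ≤ 1) (hε : 0 < ε) (rs : List (Round α)) (hv : RV rs)
    (hT : ∀ r ∈ rs, (r.gates.countP Sum.isRight : ℝ) ≤ T) :
    ∀ (E : Finset Ω) (K : Finset Z) (c : ℝ) (v : (α → Bool) → ℂ), Spread O ρ l E K c →
      (1 / 2) ^ l * Fintype.card Ω ≤ c * shrink η rs →
      ∑ ω ∈ E, gval (Or (O ω)) acc rs v ≤ E.card * (EJ p (fun J => gval (Or (K ∪ J)) acc rs v) +
        rs.length * (η + 2 * δ + 2 * ε + (1 + 1 / ε) * (4 * T ^ 2 * (ρ + p))) * nsq v) := by
  have hΩ : (0 : ℝ) < Fintype.card Ω := by exact_mod_cast Fintype.card_pos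
  obtain ⟨e, he⟩ : ∃ e, e = η + 2 * δ + 2 * ε + (1 + 1 / ε) * (4 * T ^ 2 * (ρ + p)) := ⟨_, rfl⟩
  have he0 : 0 ≤ e := by rw [he]; positivity
  rw [← he]
  induction rs with
  | nil =>
    intro E K c v _ _
    simp [gval, EJ_const]
  | cons r rs ih =>
    intro E K c v hs hc
    have ih' := ih hv.tail fun r' hr' => hT r' (List.mem_cons_of_mem _ hr')
    rw [shrink_cons, ← mul_assoc] at hc
    have hsh := shrink_mem hη hη1 rs
    have hc0 : 0 ≤ c * (η / 2 ^ r.inp.card) := by
      by_contra h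
      have h2 := mul_nonpos_of_nonpos_of_nonneg (not_le.1 h).le hsh.1
      have h3 : (0 : ℝ) < (1 / 2) ^ l * Fintype.card Ω := by positivity
      linarith
    have hc1 := hc.trans (mul_le_of_le_one_right hc0 hsh.2)
    obtain ⟨u, hu⟩ : ∃ u, u = run (Or K) r.gates v := ⟨_, rfl⟩
    have hnu : nsq u = nsq v := by rw [hu, nsq_run _ _ hv.head]
    have hv0 := nsq_nonneg v
    have s1 : ∑ ω ∈ E, mid (Or (O ω)) acc r rs u ≤ E.card *
        (EJ p (fun J => mid (Or (K ∪ J)) acc r rs u) + (rs.length * e + η + 2 * δ) * nsq v) := by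
      simp only [mid]
      rw [sum_comm, EJ_sum, ← hnu, ← sum_nsq_proj r.out u, mul_sum, ← sum_add_distrib, mul_sum]
      exact sum_le_sum fun y _ => step_msg Or acc hρ hup h0 h1 hδ hl hη rs hv.tail r.inp
        (by positivity) hc1 (fun E K v h => ih' E K _ v h hc) E K hs _
    obtain ⟨μ, hμ0, hμ1, hμ⟩ := hyb Or enc henc hOr r.gates hv.head (hT r List.mem_cons_self) K v
    rw [← hu] at hμ
    have hε1 : 0 ≤ 1 + 1 / ε := by positivity
    have s2 := spread_mass hρ hl1 hs hμ0 hμ1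
    have s3 : ∑ ω ∈ E, gval (Or (O ω)) acc (r :: rs) v ≤ ∑ ω ∈ E, mid (Or (O ω)) acc r rs u +
        E.card * (ε * nsq v) + (1 + 1 / ε) * ∑ ω ∈ E, ∑ z ∈ O ω \ K, μ z := by
      rw [← nsmul_eq_mul, ← sum_const, mul_sum, ← sum_add_distrib, ← sum_add_distrib]
      refine sum_le_sum fun ω hω => ?_
      have h2 := mid_lip (Or (O ω)) acc r rs hv.tail hε u (run (Or (O ω)) r.gates v)
      rw [nsq_sub_comm, hnu] at h2
      have h3 := mul_le_mul_of_nonneg_left (hμ _ (hs.sub ω hω)) hε1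
      rw [gval_mid]
      linarith
    have s4 : EJ p (fun J => mid (Or (K ∪ J)) acc r rs u) ≤
        EJ p (fun J => gval (Or (K ∪ J)) acc (r :: rs) v) +
          (ε * nsq v + (1 + 1 / ε) * (4 * T ^ 2 * p * nsq v)) := by
      have h2 : ∀ J, mid (Or (K ∪ J)) acc r rs u ≤ gval (Or (K ∪ J)) acc (r :: rs) v +
          (ε * nsq v + (1 + 1 / ε) * ∑ z, μ z * if z ∈ J then 1 else 0) := fun J => by
        have h3 := mid_lip (Or (K ∪ J)) acc r rs hv.tail hε (run (Or (K ∪ J)) r.gates v) u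
        rw [nsq_run _ _ hv.head] at h3
        have h4 : ∑ z ∈ (K ∪ J) \ K, μ z ≤ ∑ z, μ z * if z ∈ J then 1 else 0 := by
          simp only [mul_ite, mul_one, mul_zero, sum_ite_mem, univ_inter]
          exact sum_le_sum_of_subset_of_nonneg (by rw [union_sdiff_left]; exact sdiff_subset)
            fun z _ _ => hμ0 z
        have h5 := mul_le_mul_of_nonneg_left ((hμ _ subset_union_left).trans h4) hε1
        rw [gval_mid]
        linarith
      refine (EJ_mono h0.le h1 h2).trans ?_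
      rw [EJ_add, EJ_add, EJ_const, EJ_mul, EJ_sum]
      simp only [EJ_mul, EJ_mem]
      rw [← sum_mul]
      have h3 := mul_le_mul_of_nonneg_left (mul_le_mul_of_nonneg_right hμ1 h0.le) hε1
      linarith
    have s5 := mul_le_mul_of_nonneg_left s4 (Nat.cast_nonneg (α := ℝ) E.card)
    have s6 := mul_le_mul_of_nonneg_left s2 hε1
    rw [List.length_cons]
    push_cast
    have e1 : (E.card : ℝ) * (EJ p (fun J => gval (Or (K ∪ J)) acc (r :: rs) v) +
        (rs.length + 1) * e * nsq v) = E.card * (EJ p (fun J => gval (Or (K ∪ J)) acc (r :: rs) v) +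
          (ε * nsq v + (1 + 1 / ε) * (4 * T ^ 2 * p * nsq v))) +
        E.card * ((rs.length * e + η + 2 * δ) * nsq v) + E.card * (ε * nsq v) +
        (1 + 1 / ε) * (E.card * (4 * T ^ 2 * ρ * nsq v)) := by
      have : (rs.length + 1) * e = rs.length * e +
          (η + 2 * δ + 2 * ε + (1 + 1 / ε) * (4 * T ^ 2 * (ρ + p))) := by rw [← he]; ring
      rw [this]
      ring
    rw [e1]
    rw [mul_add] at s1
    linarith

end Pool.Agent.MP_36f78e_lc.H44
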