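import Mathlib
import Pool.Agent.MP_36f78e_lc.H44.Val

/-!
Sanity check: a verifier with a classical witness is a game with one prover message.
-/

namespace Pool.Agent.MP_36f78e_lc.H44

open Pool.Agent.MP_36f78e_lc.H24 Pool.Agent.MP_36f78e_lc.H24.Cl Finset

lemma proj_empty {α : Type} [DecidableEq α] (v : (α → Bool) → ℂ) : proj ∅ ∅ v = v := by
  funext z
  simp [proj]

lemma flip_empty {α : Type} [DecidableEq α] (v : (α → Bool) → ℂ) : flip ∅ v = v := by
  funext z
  simp [flip]

theorem play_witness (V : Verifier) (A : List Bool → Bool)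
    (P : List (Finset (Fin V.p ⊕ Fin V.q)) → Finset (Fin V.p ⊕ Fin V.q)) :
    play A V.acc [⟨[], ∅, univ.image Sum.inl⟩, ⟨V.gates, ∅, ∅⟩] P (Pi.single (fun _ => false) 1) =
      V.accProb A (Pi.single (fun i => decide (Sum.inl i ∈ P [∅])) 1) := by
  simp only [play, powerset_empty, sum_singleton, List.foldl_nil, proj_empty, inter_empty,
    flip_empty, Verifier.accProb]
  congr! 5 with _ _ z
  simp only [flip, Pi.single_apply, funext_iff, Sum.forall, mem_inter, mem_image, mem_univ,
    true_and, Sum.inl.injEq, exists_eq, and_true, reduceCtorEq, exists_false, and_false, if_false]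
  by_cases h : ∀ j, z (Sum.inr j) = false
  · rw [if_pos h]
    refine if_congr ⟨fun h1 i => ?_, fun h1 => ⟨fun i => ?_, h⟩⟩ rfl rfl
    · have := h1.1 i
      by_cases h2 : Sum.inl i ∈ P [∅] <;> simpa [h2] using this
    · have := h1 i
      by_cases h2 : Sum.inl i ∈ P [∅] <;> simpa [h2] using this
  · rw [if_neg h, if_neg fun h1 => h h1.2]

end Pool.Agent.MP_36f78e_lc.H44
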