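import Mathlib
import Pool.Agent.MP_36f78e_lc.H24.Cl.Main
import Pool.Agent.MP_36f78e_lc.H44.Junk

/-!
Random sets of small density are rejected by the two-query test.
-/

set_option linter.unusedSectionVars false

namespace Pool.Agent.MP_36f78e_lc.H44

open Pool.Agent.MP_36f78e_lc.H24 Pool.Agent.MP_36f78e_lc.H24.Cl Finset Matrix

section

variable {Z : Type} [Fintype Z] [DecidableEq Z] {p : ℝ}

lemma EJ_sq_real (c : Z → ℝ) (hc : ∑ z, c z = 0) :
    EJ p (fun J => (∑ z ∈ J, c z) ^ 2) ≤ ∑ z, c z ^ 2 := by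
  have e1 : (fun J : Finset Z => (∑ z ∈ J, c z) ^ 2) =
      fun J => ∑ z, ∑ z', c z * c z' * if ({z, z'} : Finset Z) ⊆ J then 1 else 0 := by
    funext J
    have e : ∑ z ∈ J, c z = ∑ z, if z ∈ J then c z else 0 := by simp
    rw [e, sq, sum_mul_sum]
    refine sum_congr rfl fun z _ => sum_congr rfl fun z' _ => ?_
    by_cases h : z ∈ J <;> by_cases h' : z' ∈ J <;> simp [h, h', insert_subset_iff]
  have e2 : ∀ z z' : Z, c z * c z' * p ^ ({z, z'} : Finset Z).card =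
      p ^ 2 * (c z * c z') + if z = z' then (p - p ^ 2) * c z ^ 2 else 0 := fun z z' => by
    split_ifs with h
    · subst h
      simp only [mem_singleton, insert_eq_of_mem, card_singleton]
      ring
    · rw [card_pair h]
      ring
  rw [e1, EJ_sum]
  simp only [EJ_sum, EJ_mul, EJ_subset, e2, sum_add_distrib, sum_ite_eq, mem_univ, if_true,
    ← mul_sum, hc, mul_zero, zero_add]
  exact mul_le_of_le_one_left (sum_nonneg fun _ _ => sq_nonneg _) (by nlinarith [sq_nonneg (p - 1 / 2)])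

lemma EJ_sq (c : Z → ℂ) (hc : ∑ z, c z = 0) :
    EJ p (fun J => ‖∑ z ∈ J, c z‖ ^ 2) ≤ ∑ z, ‖c z‖ ^ 2 := by
  have h2 := EJ_sq_real (p := p) (fun z => (c z).re) (by rw [← Complex.re_sum, hc, Complex.zero_re])
  have h3 := EJ_sq_real (p := p) (fun z => (c z).im) (by rw [← Complex.im_sum, hc, Complex.zero_im])
  have e : ∀ a : ℂ, ‖a‖ ^ 2 = a.re ^ 2 + a.im ^ 2 := fun a => by
    rw [Complex.sq_norm, Complex.normSq_apply]; ring
  simp only [e, Complex.re_sum, Complex.im_sum]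
  rw [EJ_add, sum_add_distrib]
  exact add_le_add h2 h3

lemma EJ_sq_union (h0 : 0 ≤ p) (h1 : p ≤ 1) (c : Z → ℂ) (hc : ∑ z, c z = 0) {a : ℝ}
    (ha : ∀ z, ‖c z‖ = a) (K : Finset Z) :
    EJ p (fun J => ‖∑ z ∈ K ∪ J, c z‖ ^ 2) ≤
      2 * (Fintype.card Z * a ^ 2) + 2 * (K.card * a) ^ 2 := by
  have h2 : ∀ J, ‖∑ z ∈ K ∪ J, c z‖ ^ 2 ≤ 2 * ‖∑ z ∈ J, c z‖ ^ 2 + 2 * (K.card * a) ^ 2 := by
    intro J
    have h3 : ‖∑ z ∈ K \ J, c z‖ ≤ K.card * a := by
      refine (norm_sum_le _ _).trans ((sum_le_sum_of_subset_of_nonneg sdiff_subset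
        fun _ _ _ => norm_nonneg _).trans (le_of_eq ?_))
      simp [ha]
    have h4 : ‖∑ z ∈ K ∪ J, c z‖ ≤ K.card * a + ‖∑ z ∈ J, c z‖ := by
      rw [← sdiff_union_self_eq_union, sum_union sdiff_disjoint]
      exact (norm_add_le _ _).trans (by linarith)
    have h5 := pow_le_pow_left₀ (norm_nonneg _) h4 2
    nlinarith [sq_nonneg (K.card * a - ‖∑ z ∈ J, c z‖)]
  refine (EJ_mono h0 h1 h2).trans ?_
  rw [EJ_add, EJ_const, EJ_mul]
  have h3 := EJ_sq (p := p) c hc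
  simp only [ha, sum_const, card_univ, nsmul_eq_mul] at h3
  linarith

lemma EJ_card (K : Finset Z) (h0 : 0 ≤ p) (h1 : p ≤ 1) :
    EJ p (fun J => ((K ∪ J).card : ℝ)) ≤ K.card + p * Fintype.card Z := by
  have h2 : ∀ J : Finset Z, ((K ∪ J).card : ℝ) ≤ K.card + ∑ z, if z ∈ J then 1 else 0 := by
    intro J
    simp only [sum_boole, filter_mem_eq_inter, univ_inter]
    exact_mod_cast card_union_le K J
  refine (EJ_mono h0 h1 h2).trans ?_
  rw [EJ_add, EJ_const, EJ_sum]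
  simp [EJ_mem, mul_comm]

end

variable {n : ℕ}

/-- The off-diagonal weight. -/
noncomputable def off (G S : Finset (Fin n → Bool)) : ℝ :=
  ∑ e ∈ G, ∑ e' ∈ G, if e = e' then 0 else ‖∑ z ∈ S, Hn n e z * star (Hn n e' z)‖ ^ 2

lemma off_nonneg (G S : Finset (Fin n → Bool)) : 0 ≤ off G S :=
  sum_nonneg fun _ _ => sum_nonneg fun _ _ => by split_ifs <;> positivity

lemma norm_HH (e e' z : Fin n → Bool) : ‖Hn n e z * star (Hn n e' z)‖ = 1 / 2 ^ n := by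
  have h1 := norm_Hn_sq e z
  have h2 := norm_Hn_sq e' z
  have h3 : ‖Hn n e z‖ = ‖Hn n e' z‖ :=
    (pow_left_inj₀ (norm_nonneg _) (norm_nonneg _) two_ne_zero).1 (h1.trans h2.symm)
  rw [norm_mul, norm_star, ← h3, ← sq, h1]

lemma EJ_off {p : ℝ} (h0 : 0 ≤ p) (h1 : p ≤ 1) (G K : Finset (Fin n → Bool)) :
    EJ p (fun J => off G (K ∪ J)) ≤
      G.card ^ 2 * (2 * (1 / 2 ^ n) + 2 * (K.card / 2 ^ n) ^ 2) := by
  unfold off
  rw [EJ_sum, sq, mul_assoc, ← nsmul_eq_mul]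
  refine sum_le_card_nsmul _ _ _ fun e _ => ?_
  rw [EJ_sum, ← nsmul_eq_mul]
  refine sum_le_card_nsmul _ _ _ fun e' _ => ?_
  by_cases h : e = e'
  · simp only [h, if_true, EJ_const]
    positivity
  · simp only [h, if_false]
    refine (EJ_sq_union h0 h1 _ (by rw [Hn_orth, if_neg h]) (norm_HH e e') K).trans (le_of_eq ?_)
    simp only [Fintype.card_pi, Fintype.card_bool, prod_const, card_univ, Fintype.card_fin,
      Nat.cast_pow, Nat.cast_ofNat]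
    field_simp

lemma spectral (G S : Finset (Fin n → Bool)) (hd : (S.card : ℝ) / 2 ^ n ≤ 1 / 6)
    (ho : off G S ≤ 1 / 36) (w : (Fin n → Bool) → ℂ) (hw : IsState w) :
    ∑ e ∈ G, ‖∑ z ∈ S, Hn n e z * w z‖ ^ 2 ≤ 1 / 3 := by
  obtain ⟨x, hx⟩ : ∃ x : (Fin n → Bool) → ℂ, x = fun e => ∑ z ∈ S, Hn n e z * w z := ⟨_, rfl⟩
  obtain ⟨y, hy⟩ : ∃ y : (Fin n → Bool) → ℂ, y = fun z => ∑ e ∈ G, star (x e) * Hn n e z :=
    ⟨_, rfl⟩
  obtain ⟨X, hX⟩ : ∃ X, X = ∑ e ∈ G, ‖x e‖ ^ 2 := ⟨_, rfl⟩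
  have hgoal : ∑ e ∈ G, ‖∑ z ∈ S, Hn n e z * w z‖ ^ 2 = X := by rw [hX, hx]
  rw [hgoal]
  have hX0 : 0 ≤ X := hX ▸ sum_nonneg fun _ _ => sq_nonneg _
  rcases hX0.eq_or_lt with h0 | h0
  · linarith
  have cs : ∀ a : ℂ, star a * a = ((‖a‖ ^ 2 : ℝ) : ℂ) := fun a => by
    rw [Complex.star_def, Complex.conj_mul']; push_cast; rfl
  have e1 : (X : ℂ) = ∑ z ∈ S, y z * w z := by
    rw [hX, hy]
    simp only [sum_mul]
    rw [sum_comm, Complex.ofReal_sum]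
    refine sum_congr rfl fun e _ => ?_
    rw [← cs]
    conv_lhs => rw [hx]
    conv_rhs => rw [hx]
    simp only [mul_sum, mul_assoc]
  have h1 : X ^ 2 ≤ ∑ z ∈ S, ‖y z‖ ^ 2 := by
    have h2 : X ≤ ∑ z ∈ S, ‖y z‖ * ‖w z‖ := by
      calc X = ‖(X : ℂ)‖ := by rw [Complex.norm_real, Real.norm_of_nonneg hX0]
        _ ≤ _ := by
          rw [e1]
          exact (norm_sum_le _ _).trans (le_of_eq (by simp only [norm_mul]))
    calc _ ≤ _ := pow_le_pow_left₀ hX0 h2 2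
      _ ≤ (∑ z ∈ S, ‖y z‖ ^ 2) * ∑ z ∈ S, ‖w z‖ ^ 2 := sum_mul_sq_le_sq_mul_sq _ _ _
      _ ≤ _ := mul_le_of_le_one_right (sum_nonneg fun _ _ => sq_nonneg _)
          ((sum_le_sum_of_subset_of_nonneg (subset_univ _) fun _ _ _ => sq_nonneg _).trans hw.le)
  have e2 : ((∑ z ∈ S, ‖y z‖ ^ 2 : ℝ) : ℂ) =
      ∑ e ∈ G, ∑ e' ∈ G, star (x e) * x e' * ∑ z ∈ S, Hn n e z * star (Hn n e' z) := by
    have e3 : ∀ z, ((‖y z‖ ^ 2 : ℝ) : ℂ) =
        ∑ e ∈ G, ∑ e' ∈ G, star (x e) * x e' * (Hn n e z * star (Hn n e' z)) := fun z => by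
      rw [← cs, mul_comm, hy]
      simp only [star_sum, star_mul', star_star, sum_mul_sum]
      exact sum_congr rfl fun e _ => sum_congr rfl fun e' _ => by ring
    rw [Complex.ofReal_sum]
    simp only [e3, mul_sum]
    rw [sum_comm]
    exact sum_congr rfl fun e _ => sum_comm
  have h2 : ∀ e e', ‖star (x e) * x e' * ∑ z ∈ S, Hn n e z * star (Hn n e' z)‖ ≤
      (if e = e' then 1 / 6 * ‖x e‖ ^ 2 else 0) + (1 / (12 * X) * (‖x e‖ ^ 2 * ‖x e'‖ ^ 2) +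
        3 * X * if e = e' then 0 else ‖∑ z ∈ S, Hn n e z * star (Hn n e' z)‖ ^ 2) := by
    intro e e'
    rw [norm_mul, norm_mul, norm_star]
    split_ifs with h
    · subst h
      have h3 : ‖∑ z ∈ S, Hn n e z * star (Hn n e z)‖ ≤ 1 / 6 := by
        refine (norm_sum_le _ _).trans (le_trans (le_of_eq ?_) hd)
        simp only [norm_HH, sum_const, nsmul_eq_mul]
        ring
      have h4 := mul_le_mul_of_nonneg_left h3 (mul_self_nonneg ‖x e‖)
      have h5 : 0 ≤ 1 / (12 * X) * (‖x e‖ ^ 2 * ‖x e‖ ^ 2) := by positivity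
      nlinarith
    · generalize ‖∑ z ∈ S, Hn n e z * star (Hn n e' z)‖ = b
      rw [← mul_pow]
      generalize ‖x e‖ * ‖x e'‖ = a
      have h3 : 0 ≤ (a - 6 * X * b) ^ 2 / (12 * X) := by positivity
      have h4 : (a - 6 * X * b) ^ 2 / (12 * X) =
          1 / (12 * X) * a ^ 2 + 3 * X * b ^ 2 - a * b := by
        field_simp
        ring
      linarith
  have h3 : ∑ z ∈ S, ‖y z‖ ^ 2 ≤ 1 / 6 * X + (1 / (12 * X) * (X * X) + 3 * X * off G S) := by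
    calc _ = ‖((∑ z ∈ S, ‖y z‖ ^ 2 : ℝ) : ℂ)‖ := by
          rw [Complex.norm_real, Real.norm_of_nonneg (sum_nonneg fun _ _ => sq_nonneg _)]
      _ ≤ ∑ e ∈ G, ∑ e' ∈ G, ((if e = e' then 1 / 6 * ‖x e‖ ^ 2 else 0) +
          (1 / (12 * X) * (‖x e‖ ^ 2 * ‖x e'‖ ^ 2) + 3 * X *
            if e = e' then 0 else ‖∑ z ∈ S, Hn n e z * star (Hn n e' z)‖ ^ 2)) := by
          rw [e2]
          exact (norm_sum_le _ _).trans (sum_le_sum fun e _ =>
            (norm_sum_le _ _).trans (sum_le_sum fun e' _ => h2 e e'))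
      _ = _ := by
          simp only [sum_add_distrib, ← mul_sum, off]
          congr 1
          · rw [hX, mul_sum]
            exact sum_congr rfl fun e he => by rw [sum_ite_eq, if_pos he]
          · rw [← sum_mul, ← hX]
  have h4 : 1 / (12 * X) * (X * X) = 1 / 12 * X := by field_simp
  have h5 := mul_le_mul_of_nonneg_left ho (by positivity : 0 ≤ 3 * X)
  nlinarith

end Pool.Agent.MP_36f78e_lc.H44
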