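import Mathlib
import Pool.Agent.MP_36f78e_lc.H44.Core
import Pool.Agent.MP_36f78e_lc.H44.Spec

/-!
The lower bound for one input length, and the diagonal construction.
-/

set_option linter.unusedSectionVars false

namespace Pool.Agent.MP_36f78e_lc.H44

open Pool.Agent.MP_36f78e_lc.H24 Pool.Agent.MP_36f78e_lc.H24.Cl Finset
open scoped BigOperators

/-- Negative instances. -/
def Rej (A : List Bool → Bool) (n : ℕ) : Prop :=
  ∀ w, IsState w → ∑ e ∈ part A n true, ‖∑ z ∈ part A n false, Hn n e z * w z‖ ^ 2 ≤ 1 / 3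

/-- The value of a protocol. -/
noncomputable def Protocol.value (V : Protocol) (A : List Bool → Bool) : ℝ :=
  gval A V.acc V.rounds (Pi.single (fun _ => false) 1)

/-- One half of an oracle. -/
def half (A : List Bool → Bool) (b : Bool) : List Bool → Bool := fun s => A (b :: s)

/-- The half `b` is a positive instance and the other half is a negative instance. -/
def Side (A : List Bool → Bool) (n : ℕ) (b : Bool) : Prop :=
  Yes (half A b) n ∧ Rej (half A (!b)) n

/-- The protocol is wrong on inputs of length `n`. -/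
def Bad (V : Protocol) (n : ℕ) (A : List Bool → Bool) : Prop :=
  (Side A n false ∧ V.value A < 2 / 3) ∨ (Side A n true ∧ 1 / 3 < V.value A)

/-- The oracle with two halves. -/
def orc2 {N : ℕ} (A0 : List Bool → Bool) (G S0 S1 : Finset (Fin N → Bool)) : List Bool → Bool
  | [] => A0 []
  | false :: s => orc (half A0 false) G S0 s
  | true :: s => orc (half A0 true) G S1 s

lemma orc2_agree {N : ℕ} (A0 : List Bool → Bool) (G S0 S1 : Finset (Fin N → Bool))
    (s : List Bool) (hs : s.length ≠ N + 2) : orc2 A0 G S0 S1 s = A0 s := by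
  rcases s with _ | ⟨_ | _, s⟩
  · rfl
  · exact if_neg fun h => hs (by rw [List.length_cons, h])
  · exact if_neg fun h => hs (by rw [List.length_cons, h])

lemma orc2_left {N : ℕ} (A0 : List Bool → Bool) (G S1 K S : Finset (Fin N → Bool)) (h : K ⊆ S) :
    ∀ s ∉ (S \ K).image (fun z => false :: false :: List.ofFn z),
      orc2 A0 G K S1 s = orc2 A0 G S S1 s := by
  rintro (_ | ⟨_ | _, s⟩) hs
  · rfl
  · refine orc_agree _ G h s fun h1 => hs ?_
    obtain ⟨z, hz, rfl⟩ := mem_image.1 h1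
    exact mem_image_of_mem _ hz
  · rfl

lemma orc2_right {N : ℕ} (A0 : List Bool → Bool) (G S0 K S : Finset (Fin N → Bool)) (h : K ⊆ S) :
    ∀ s ∉ (S \ K).image (fun z => true :: false :: List.ofFn z),
      orc2 A0 G S0 K s = orc2 A0 G S0 S s := by
  rintro (_ | ⟨_ | _, s⟩) hs
  · rfl
  · rfl
  · refine orc_agree _ G h s fun h1 => hs ?_
    obtain ⟨z, hz, rfl⟩ := mem_image.1 h1
    exact mem_image_of_mem _ hz

lemma yes_orc {N : ℕ} (A0 : List Bool → Bool) {G S : Finset (Fin N → Bool)} (h1 : S.Nonempty)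
    (h2 : ∀ e ∉ G, ∑ z ∈ S, sgn e z = 0) : Yes (orc A0 G S) N := by
  unfold Yes
  rw [part_orc_false, part_orc_true]
  exact ⟨h1, h2⟩

lemma rej_orc {N : ℕ} (A0 : List Bool → Bool) {G S : Finset (Fin N → Bool)}
    (hd : (S.card : ℝ) / 2 ^ N ≤ 1 / 6) (ho : off G S ≤ 1 / 36) : Rej (orc A0 G S) N := by
  unfold Rej
  rw [part_orc_false, part_orc_true]
  exact spectral G _ hd ho

lemma off_le {N : ℕ} (G S : Finset (Fin N → Bool)) :
    off G S ≤ G.card ^ 2 * ((S.card : ℝ) / 2 ^ N) ^ 2 := by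
  unfold off
  rw [sq (G.card : ℝ), mul_assoc, ← nsmul_eq_mul]
  refine sum_le_card_nsmul _ _ _ fun e _ => ?_
  rw [← nsmul_eq_mul]
  refine sum_le_card_nsmul _ _ _ fun e' _ => ?_
  split_ifs
  · positivity
  · refine pow_le_pow_left₀ (norm_nonneg _) ((norm_sum_le _ _).trans (le_of_eq ?_)) 2
    simp only [norm_HH, sum_const, nsmul_eq_mul]
    ring

lemma Protocol.Valid.rv {V : Protocol} (h : V.Valid) : RV V.rounds := by
  rintro r hr (U | ⟨l, t⟩) hg
  · exact (h r hr).1 U hg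
  · exact (h r hr).2 l t hg

lemma nsq_single {κ : Type} [Fintype κ] [DecidableEq κ] (y : κ) :
    nsq (Pi.single y (1 : ℂ) : κ → ℂ) = 1 := by
  unfold nsq
  rw [sum_eq_single y (fun b _ hb => by simp [hb]) (by simp)]
  simp

theorem abstract_bound (V : Protocol) (hV : V.Valid) (A0 : List Bool → Bool) {N : ℕ}
    (G : Finset (Fin N → Bool)) {Ω : Type} [Fintype Ω] [Nonempty Ω]
    (O : Ω → Finset (Fin N → Bool)) (hO : ∀ ω, ∀ e ∉ G, ∑ z ∈ O ω, sgn e z = 0)
    {ρ p δ ε η T c : ℝ} {l : ℕ} (hρ : 0 < ρ)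
    (hup : ∀ Y : Finset (Fin N → Bool), Y.card ≤ 2 * l →
      𝔼 ω, (if Y ⊆ O ω then 1 else 0 : ℝ) ≤ (ρ / 2) ^ Y.card)
    (hlo : c ≤ 𝔼 ω, (if default ∈ O ω then 1 else 0 : ℝ))
    (h0 : 0 < p) (h1 : p ≤ 1) (hδ : 0 < δ) (hl : (1 + ρ / p) ^ l ≤ 1 + 4 * δ ^ 2) (hl1 : 1 ≤ l)
    (hη : 0 ≤ η) (hη1 : η ≤ 1) (hε : 0 < ε)
    (hT : ∀ r ∈ V.rounds, (r.gates.countP Sum.isRight : ℝ) ≤ T)
    (hc : (1 / 2) ^ l ≤ c * shrink η V.rounds)
    (herr : 2 * (V.rounds.length * (η + 2 * δ + 2 * ε + (1 + 1 / ε) * (4 * T ^ 2 * (ρ + p)))) +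
      (6 * (l / 2 ^ N + p) + 36 * (G.card ^ 2 * (2 * (1 / 2 ^ N) + 2 * (l / 2 ^ N) ^ 2))) < 1 / 3) :
    ∃ A : List Bool → Bool, (∀ s, s.length ≠ N + 2 → A s = A0 s) ∧ Bad V N A := by
  classical
  by_contra hcon
  have hw : ∀ X Y, ¬ Bad V N (orc2 A0 G X Y) := fun X Y h => hcon ⟨_, orc2_agree A0 G X Y, h⟩
  have hΩ : (0 : ℝ) < Fintype.card Ω := by exact_mod_cast Fintype.card_pos
  have hE : ∀ (P : Ω → Prop) [DecidablePred P], 𝔼 ω, (if P ω then 1 else 0 : ℝ) =
      (univ.filter P).card / Fintype.card Ω := fun P _ => by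
    rw [expect_eq_sum_div_card, sum_boole, card_univ]
  have hup' : ∀ Y : Finset (Fin N → Bool), Y.card ≤ 2 * l →
      ((univ.filter fun ω => Y ⊆ O ω).card : ℝ) ≤ (ρ / 2) ^ Y.card * Fintype.card Ω :=
    fun Y hY => by
      have := hup Y hY
      rwa [hE, div_le_iff₀ hΩ] at this
  rw [hE, le_div_iff₀ hΩ] at hlo
  have hsh := shrink_mem hη hη1 V.rounds
  have hc0 : 0 ≤ c := by
    by_contra h
    have h2 := mul_nonpos_of_nonpos_of_nonneg (not_le.1 h).le hsh.1
    have h3 : (0 : ℝ) < (1 / 2) ^ l := by positivity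
    linarith
  have hc1 : (1 / 2) ^ l * Fintype.card Ω ≤ c * Fintype.card Ω * shrink η V.rounds := by
    rw [mul_right_comm]
    exact mul_le_mul_of_nonneg_right hc hΩ.le
  have hc2 : (1 / 2) ^ l * Fintype.card Ω ≤ c * Fintype.card Ω :=
    hc1.trans (mul_le_of_le_one_right (by positivity) hsh.2)
  obtain ⟨K, -, hs⟩ := exists_spread hρ hup' hc2 (univ.filter fun ω => default ∈ O ω) ∅
    (fun ω _ => empty_subset _) (by simp) (by simpa using hlo)
  obtain ⟨E, hEd⟩ : ∃ E, E = (univ.filter fun ω => default ∈ O ω).filter fun ω => K ⊆ O ω :=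
    ⟨_, rfl⟩
  rw [← hEd] at hs
  have hE0 : (0 : ℝ) < E.card :=
    lt_of_lt_of_le (mul_pos (lt_of_lt_of_le (by positivity) hc2) (by positivity)) hs.big
  have hK : (K.card : ℝ) ≤ l := by exact_mod_cast hs.small
  have hinj : ∀ b : Bool, Function.Injective fun z : Fin N → Bool => b :: false :: List.ofFn z :=
    fun b _ _ h => enc_inj (List.cons.inj h).2
  obtain ⟨e, he⟩ : ∃ e, e = V.rounds.length *
    (η + 2 * δ + 2 * ε + (1 + 1 / ε) * (4 * T ^ 2 * (ρ + p))) := ⟨_, rfl⟩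
  have key := core (fun S => orc2 A0 G S K) _ (hinj false)
    (fun K' S h => orc2_left A0 G K K' S h) V.acc hρ hup' h0 h1 hδ hl hl1 hη hη1 hε V.rounds
    hV.rv hT E K _ (Pi.single (fun _ => false) 1) hs hc1
  rw [nsq_single, mul_one, ← he] at key
  rw [← he] at herr
  have he0 : 0 ≤ e := by rw [he]; positivity
  have hne : ∀ ω ∈ E, (O ω).Nonempty := fun ω hω => by
    rw [hEd] at hω
    exact ⟨_, (mem_filter.1 (mem_filter.1 hω).1).2⟩
  have hKd : (K.card : ℝ) / 2 ^ N ≤ l / 2 ^ N := div_le_div_of_nonneg_right hK (by positivity)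
  have hyes : (E.card : ℝ) * (2 / 3) ≤ ∑ ω ∈ E, V.value (orc2 A0 G (O ω) K) := by
    rw [← nsmul_eq_mul]
    refine card_nsmul_le_sum _ _ _ fun ω hω => not_lt.1 fun h => hw _ _ (Or.inl ⟨⟨?_, ?_⟩, h⟩)
    · exact yes_orc _ (hne ω hω) (hO ω)
    · have h2 : (0 : ℝ) ≤ G.card ^ 2 * (2 * (1 / 2 ^ N) + 2 * (l / 2 ^ N) ^ 2) := by positivity
      have h3 : (0 : ℝ) ≤ l / 2 ^ N := by positivity
      refine rej_orc _ (by linarith) ((off_le G K).trans ?_)
      have h4 : (G.card : ℝ) ^ 2 * ((K.card : ℝ) / 2 ^ N) ^ 2 ≤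
          G.card ^ 2 * (2 * (1 / 2 ^ N) + 2 * (l / 2 ^ N) ^ 2) := by
        refine mul_le_mul_of_nonneg_left ?_ (by positivity)
        have h5 := pow_le_pow_left₀ (by positivity) hKd 2
        have h6 : (0 : ℝ) ≤ 1 / 2 ^ N := by positivity
        have h7 := sq_nonneg ((l : ℝ) / 2 ^ N)
        linarith
      linarith
  have hno : ∀ J, V.value (orc2 A0 G (K ∪ J) K) ≤
      (1 / 3 + e) + (6 / 2 ^ N * ((K ∪ J).card : ℝ) + 36 * off G (K ∪ J)) := fun J => by
    have h2 : V.value (orc2 A0 G (K ∪ J) K) ≤ 1 :=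
      (gval_le _ _ _ hV.rv _).trans (nsq_single _).le
    have h3 := off_nonneg G (K ∪ J)
    have h4 : (0 : ℝ) ≤ ((K ∪ J).card : ℝ) / 2 ^ N := by positivity
    have e1 : 6 / 2 ^ N * ((K ∪ J).card : ℝ) = 6 * (((K ∪ J).card : ℝ) / 2 ^ N) := by ring
    rw [e1]
    by_cases hd : ((K ∪ J).card : ℝ) / 2 ^ N ≤ 1 / 6
    · by_cases ho : off G (K ∪ J) ≤ 1 / 36
      · have h5 := lift (fun S => orc2 A0 G (K ∪ J) S) _ (hinj true)
          (fun K' S h => orc2_right A0 G _ K' S h) V.acc hρ hl1 hε hs V.rounds hV.rv hT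
          (Pi.single (fun _ => false) 1)
        rw [nsq_single, mul_one] at h5
        have h6 : ∑ ω ∈ E, V.value (orc2 A0 G (K ∪ J) (O ω)) ≤ E.card * (1 / 3) := by
          rw [← nsmul_eq_mul]
          exact sum_le_card_nsmul _ _ _ fun ω hω => not_lt.1 fun h =>
            hw _ _ (Or.inr ⟨⟨yes_orc _ (hne ω hω) (hO ω), rej_orc _ hd ho⟩, h⟩)
        have h7 : V.rounds.length * (ε + (1 + 1 / ε) * (4 * T ^ 2 * ρ)) ≤ e := by
          rw [he]
          refine mul_le_mul_of_nonneg_left ?_ (Nat.cast_nonneg _)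
          have h8 : (1 + 1 / ε) * (4 * T ^ 2 * ρ) ≤ (1 + 1 / ε) * (4 * T ^ 2 * (ρ + p)) := by
            gcongr
            linarith
          linarith
        have h8 : (E.card : ℝ) * V.value (orc2 A0 G (K ∪ J) K) ≤ E.card * (1 / 3 + e) := by
          have h9 := mul_le_mul_of_nonneg_left h7 hE0.le
          unfold Protocol.value at h6 ⊢
          linarith
        have h9 := le_of_mul_le_mul_left h8 hE0
        linarith
      · linarith
    · linarith
  have h2 := EJ_mono h0.le h1 hno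
  rw [EJ_add, EJ_const, EJ_add, EJ_mul, EJ_mul] at h2
  have h3 := EJ_card K h0.le h1
  have h4 := EJ_off h0.le h1 G K
  have h5 : 6 / 2 ^ N * EJ p (fun J => ((K ∪ J).card : ℝ)) ≤ 6 * (l / 2 ^ N + p) := by
    refine (mul_le_mul_of_nonneg_left (h3.trans (add_le_add_left hK _)) (by positivity)).trans
      (le_of_eq ?_)
    simp only [Fintype.card_pi, Fintype.card_bool, prod_const, card_univ, Fintype.card_fin,
      Nat.cast_pow, Nat.cast_ofNat]
    field_simp
  have h6 : EJ p (fun J => off G (K ∪ J)) ≤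
      G.card ^ 2 * (2 * (1 / 2 ^ N) + 2 * (l / 2 ^ N) ^ 2) := h4.trans (by gcongr)
  have h7 := le_of_mul_le_mul_left (hyes.trans key) hE0
  unfold Protocol.value at h2
  linarith

lemma one_add_pow_le {x : ℝ} (hx : 0 ≤ x) (l : ℕ) (h : l * x ≤ 1 / 2) :
    (1 + x) ^ l ≤ 1 + 2 * (l * x) := by
  induction l with
  | zero => simp
  | succ l ih =>
    push_cast at h ⊢
    have h1 : l * x ≤ 1 / 2 := by nlinarith
    have h2 := mul_le_mul_of_nonneg_right (ih h1) (by linarith : 0 ≤ 1 + x)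
    rw [pow_succ]
    nlinarith

lemma cost_facts {α : Type} (rs : List (Round α)) {η : ℝ} (h0 : 0 < η) (h1 : η ≤ 1 / 2) :
    rs.length ≤ (rs.map fun r => 1 + r.gates.countP Sum.isRight + r.inp.card).sum ∧
    (∀ r ∈ rs, r.gates.countP Sum.isRight ≤
      (rs.map fun r => 1 + r.gates.countP Sum.isRight + r.inp.card).sum) ∧
    η ^ (rs.map fun r => 1 + r.gates.countP Sum.isRight + r.inp.card).sum ≤
      (rs.map fun r => η / 2 ^ r.inp.card).prod := by
  induction rs with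
  | nil => simp
  | cons r rs ih =>
    obtain ⟨i1, i2, i3⟩ := ih
    simp only [List.map_cons, List.sum_cons, List.prod_cons, List.length_cons]
    refine ⟨by omega, fun r' hr' => ?_, ?_⟩
    · rcases List.mem_cons.1 hr' with rfl | hr'
      · omega
      · have := i2 r' hr'
        omega
    · rw [pow_add]
      refine mul_le_mul ?_ i3 (by positivity) (by positivity)
      calc _ ≤ η ^ (1 + r.inp.card) := pow_le_pow_of_le_one h0.le (by linarith) (by omega)
        _ ≤ η * (1 / 2) ^ r.inp.card := by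
            rw [pow_add, pow_one]
            exact mul_le_mul_of_nonneg_left (pow_le_pow_left₀ h0.le h1 _) h0.le
        _ = _ := by rw [div_pow, one_pow, mul_one_div]

theorem finite_bound (V : Protocol) (hV : V.Valid) (A0 : List Bool → Bool) (r k a d : ℕ)
    (hr : r ≠ 0) (hk : 2 ≤ k) (ha : 10 ≤ a) (hn : 40 * a * 3 ^ d ≤ 2 ^ r)
    (hno : 2 * (r * (4 * a + 1) * (40 * a * 2 ^ d)) + 8 * a + 12 ≤ r * k)
    (hρ : 5 / 7 * (10 / 21 : ℝ) ^ d * ((k - 1) * (4 * a) : ℕ) ≤ (40 * a : ℕ) * (1 / 10))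
    (hC : V.cost < 2 ^ a) :
    ∃ A : List Bool → Bool, (∀ s, s.length ≠ r * k + 2 → A s = A0 s) ∧ Bad V (r * k) A := by
  obtain ⟨G, Ω, _, _, O, hG, hO, hup, hlo⟩ :=
    exists_family r k (4 * a) (40 * a) d hr hk (by omega) hn
  obtain ⟨D, hD⟩ : ∃ D : ℕ, D = 2 ^ a := ⟨_, rfl⟩
  have hD1 : 1024 ≤ D := by
    rw [hD]
    exact le_trans (by norm_num) (Nat.pow_le_pow_right (by norm_num : 0 < 2) ha)
  have haD : a < D := hD ▸ Nat.lt_two_pow_self
  have hD4 : 2 ^ (4 * a) = D ^ 4 := by rw [hD, ← pow_mul, mul_comm]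
  obtain ⟨l, hl⟩ : ∃ l, l = 40 * a + (6 + a) * D := ⟨_, rfl⟩
  have hl2 : 2 * l ≤ D ^ 4 := by
    have h1 : (6 + a) * D ≤ (2 * D) * D := Nat.mul_le_mul_right _ (by omega)
    have h2 : 40 * D ≤ D * D := Nat.mul_le_mul_right _ (by omega)
    have h3 : 6 * (D * D) ≤ (D * D) * (D * D) := Nat.mul_le_mul_right _ (by nlinarith)
    calc 2 * l ≤ 6 * (D * D) := by nlinarith
      _ ≤ _ := by nlinarith
  have hx : (1024 : ℝ) ≤ D := by exact_mod_cast hD1
  have hx0 : (0 : ℝ) < D := by linarith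
  have hlx : 2 * (l : ℝ) ≤ (D : ℝ) ^ 4 := by exact_mod_cast hl2
  have hη : (1 : ℝ) / (64 * D) ≤ 1 / 2 := by
    rw [div_le_div_iff₀ (by positivity) (by norm_num)]; linarith
  obtain ⟨c1, c2, c3⟩ := cost_facts V.rounds (η := 1 / (64 * D)) (by positivity) hη
  rw [← hD] at hC
  change _ ≤ V.cost at c1
  change ∀ r ∈ V.rounds, _ ≤ V.cost at c2
  change _ ^ V.cost ≤ shrink _ V.rounds at c3
  have hx4 : (1024 : ℝ) ^ 4 ≤ (D : ℝ) ^ 4 := pow_le_pow_left₀ (by norm_num) hx 4
  have hx2 : (1024 : ℝ) ^ 2 ≤ (D : ℝ) ^ 2 := pow_le_pow_left₀ (by norm_num) hx 2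
  have hx8 : (1 : ℝ) ≤ (D : ℝ) ^ 8 := one_le_pow₀ (by linarith)
  refine abstract_bound V hV A0 G O hO (ρ := 2 / D ^ 16) (p := 1 / D ^ 8) (δ := 1 / (64 * D))
    (ε := 1 / (64 * D)) (η := 1 / (64 * D)) (T := D) (c := (1 / 2) ^ (40 * a)) (l := l)
    (by positivity) (fun Y hY => ?_)
    ((pow_le_pow_left₀ (by norm_num) (by norm_num) _).trans (hlo default)) (by positivity)
    (by rwa [div_le_one (by positivity)]) (by positivity) ?_ (by omega) (by positivity)
    (by linarith) (by positivity) (fun r hr => by exact_mod_cast ((c2 r hr).trans hC.le)) ?_ ?_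
  · refine (hup Y (by omega)).trans (pow_le_pow_left₀ (by positivity) ?_ _)
    have e1 : Real.exp (1 / 10) ≤ 9 / 8 := by
      have := Real.exp_bound_div_one_sub_of_interval (x := 1 / 10) (by norm_num) (by norm_num)
      linarith
    calc _ ≤ (2 / 3 : ℝ) ^ (40 * a) * Real.exp (1 / 10) ^ (40 * a) := by
          rw [← Real.exp_nat_mul]
          exact mul_le_mul_of_nonneg_left (Real.exp_le_exp.2 hρ) (by positivity)
      _ ≤ (3 / 4) ^ (40 * a) := by
          rw [← mul_pow]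
          exact pow_le_pow_left₀ (by positivity) (by linarith) _
      _ ≤ ((1 / 2) ^ 16) ^ a := by
          rw [pow_mul]
          exact pow_le_pow_left₀ (by positivity) (by norm_num) _
      _ = _ := by
          rw [hD, pow_right_comm]
          push_cast
          rw [div_pow, div_pow, one_pow, one_pow]
          ring
  · have e : (2 / D ^ 16 / (1 / D ^ 8) : ℝ) = 2 / D ^ 8 := by field_simp
    have h1 : (l : ℝ) * (2 / D ^ 8) ≤ 1 / D ^ 4 := by
      rw [← mul_div_assoc, div_le_div_iff₀ (by positivity) (by positivity)]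
      calc _ ≤ (D : ℝ) ^ 4 * D ^ 4 := mul_le_mul_of_nonneg_right (by linarith) (by positivity)
        _ = _ := by ring
    have h2 : (1 : ℝ) / D ^ 4 ≤ 2 * (1 / (64 * D)) ^ 2 := by
      rw [div_pow, one_pow, mul_one_div, div_le_div_iff₀ (by positivity) (by positivity)]
      nlinarith
    have h3 : (1 : ℝ) / D ^ 4 ≤ 1 / 2 := by
      rw [div_le_div_iff₀ (by positivity) (by positivity)]
      linarith
    rw [e]
    refine (one_add_pow_le (by positivity) l (h1.trans h3)).trans ?_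
    linarith
  · rw [hl, pow_add]
    refine mul_le_mul_of_nonneg_left (le_trans ?_ c3) (by positivity)
    have e : (1 : ℝ) / (64 * D) = (1 / 2) ^ (6 + a) := by
      rw [hD, pow_add]
      push_cast
      rw [div_pow, div_pow, one_pow, one_pow]
      field_simp
      norm_num
    rw [pow_mul, ← e]
    exact pow_le_pow_of_le_one (by positivity) (by linarith) hC.le
  · have hR : (V.rounds.length : ℝ) ≤ D := by exact_mod_cast c1.trans hC.le
    have h1 : (V.rounds.length : ℝ) * (1 / (64 * D) + 2 * (1 / (64 * D)) + 2 * (1 / (64 * D)) +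
        (1 + 1 / (1 / (64 * D))) * (4 * (D : ℝ) ^ 2 * (2 / D ^ 16 + 1 / D ^ 8))) ≤
        5 / 64 + 1 / 100 := by
      refine (mul_le_mul_of_nonneg_right hR (by positivity)).trans ?_
      have h2 : (2 : ℝ) / D ^ 16 ≤ 2 / D ^ 8 :=
        div_le_div_of_nonneg_left (by norm_num) (by positivity)
          (pow_le_pow_right₀ (by linarith) (by norm_num))
      have h3 : (1 + 1 / (1 / (64 * D))) * (4 * (D : ℝ) ^ 2 * (2 / D ^ 16 + 1 / D ^ 8)) ≤
          (65 * D) * (4 * (D : ℝ) ^ 2 * (2 / D ^ 8 + 1 / D ^ 8)) := by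
        rw [one_div_one_div]
        gcongr
        linarith
      have h4 : (D : ℝ) * ((65 * D) * (4 * (D : ℝ) ^ 2 * (2 / D ^ 8 + 1 / D ^ 8))) =
          780 / D ^ 4 := by
        field_simp
        norm_num
      have h5 : (780 : ℝ) / D ^ 4 ≤ 1 / 100 := by
        rw [div_le_div_iff₀ (by positivity) (by positivity)]
        linarith
      have h6 : (D : ℝ) * (1 / (64 * D) + 2 * (1 / (64 * D)) + 2 * (1 / (64 * D))) = 5 / 64 := by
        field_simp
        norm_num
      have h7 := mul_le_mul_of_nonneg_left h3 hx0.le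
      rw [mul_add]
      linarith
    obtain ⟨N, hN⟩ : ∃ N, N = r * k := ⟨_, rfl⟩
    have hGN : (G.card : ℝ) ^ 2 * (4096 * D ^ 8) ≤ 2 ^ N := by
      have h2 : G.card ^ 2 * (4096 * D ^ 8) ≤ 2 ^ N := by
        calc _ ≤ (2 ^ (r * (4 * a + 1) * (40 * a * 2 ^ d))) ^ 2 * (2 ^ 12 * (2 ^ a) ^ 8) := by
              rw [hD]
              exact Nat.mul_le_mul_right _ (Nat.pow_le_pow_left hG 2)
          _ ≤ _ := by
              rw [← pow_mul, ← pow_mul, ← pow_add, ← pow_add]
              exact Nat.pow_le_pow_right (by norm_num) (by omega)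
      exact_mod_cast h2
    have hN1 : (4096 * (D : ℝ) ^ 8) ≤ 2 ^ N := by
      have h2 : 4096 * D ^ 8 ≤ 2 ^ N := by
        calc _ = 2 ^ 12 * (2 ^ a) ^ 8 := by rw [hD]; norm_num
          _ ≤ _ := by
              rw [← pow_mul, ← pow_add]
              exact Nat.pow_le_pow_right (by norm_num) (by omega)
      exact_mod_cast h2
    generalize G.card = g at hGN ⊢
    rw [← hN]
    have hP : (0 : ℝ) < 2 ^ N := by positivity
    have hl0 : (0 : ℝ) ≤ l := Nat.cast_nonneg _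
    have hl8 : (l : ℝ) ^ 2 ≤ (D : ℝ) ^ 8 := by
      calc _ ≤ ((D : ℝ) ^ 4) ^ 2 := pow_le_pow_left₀ hl0 (by linarith) 2
        _ = _ := by ring
    have h48 : (D : ℝ) ^ 4 ≤ (D : ℝ) ^ 8 := pow_le_pow_right₀ (by linarith) (by norm_num)
    have h2 : (l : ℝ) / 2 ^ N ≤ 1 / 4096 := by
      rw [div_le_div_iff₀ hP (by norm_num)]
      linarith
    have h3 : (1 : ℝ) / D ^ 8 ≤ 1 / 4096 := by
      rw [div_le_div_iff₀ (by positivity) (by norm_num)]
      linarith
    have hG0 : (0 : ℝ) ≤ (g : ℝ) ^ 2 := by positivity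
    have h4 : (g : ℝ) ^ 2 * (1 / 2 ^ N) ≤ 1 / 4096 := by
      rw [mul_one_div, div_le_div_iff₀ hP (by norm_num)]
      nlinarith
    have h5 : (g : ℝ) ^ 2 * (l / 2 ^ N) ^ 2 ≤ 1 / 4096 := by
      rw [div_pow, ← mul_div_assoc, div_le_div_iff₀ (by positivity) (by norm_num)]
      have h6 := mul_le_mul_of_nonneg_left hl8 hG0
      have h7 : (2 : ℝ) ^ N ≤ (2 ^ N) ^ 2 := le_self_pow₀ (by linarith) (by norm_num)
      linarith
    rw [mul_add ((g : ℝ) ^ 2), mul_left_comm ((g : ℝ) ^ 2),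
      mul_left_comm ((g : ℝ) ^ 2)]
    linarith

theorem finite_bound' (t : ℕ) (ht : 170 ≤ t) : ∃ N, t ≤ N ∧ ∀ V : Protocol, V.Valid →
    Nat.log 2 V.cost ^ 33 ≤ N → ∀ A0 : List Bool → Bool,
    ∃ A : List Bool → Bool, (∀ s, s.length ≠ N + 2 → A s = A0 s) ∧ Bad V N A := by
  obtain ⟨a, ha⟩ : ∃ a, a = 2 ^ t := ⟨_, rfl⟩
  obtain ⟨d, hd⟩ : ∃ d, d = 29 * (t + 5) := ⟨_, rfl⟩
  obtain ⟨r, hr⟩ : ∃ r, r = 47 * t + 236 := ⟨_, rfl⟩
  obtain ⟨E, hE⟩ : ∃ E, E = 2 ^ d := ⟨_, rfl⟩
  have hta : t < a := ha ▸ Nat.lt_two_pow_self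
  have hE0 : 1 ≤ E := hE ▸ Nat.one_le_two_pow
  have haE : 1 ≤ a * E := Nat.mul_pos (by omega) hE0
  have hk : 2 * ((4 * a + 1) * (40 * a * E + 1)) ≤ 410 * (a * (a * E)) := by
    calc _ ≤ 2 * ((5 * a) * (41 * (a * E))) := Nat.mul_le_mul_left _
          (Nat.mul_le_mul (by omega) (by rw [mul_assoc]; omega))
      _ = _ := by ring
  refine ⟨r * (2 * ((4 * a + 1) * (40 * a * E + 1)) + 1), ?_, fun V hV hc A0 => ?_⟩
  · exact le_trans (by omega) (Nat.le_mul_of_pos_right r (Nat.succ_pos _))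
  have hN : r * (2 * ((4 * a + 1) * (40 * a * E + 1)) + 1) < a ^ 33 := by
    have h1 : 1 ≤ a * (a * E) := Nat.mul_pos (by omega) haE
    calc _ ≤ (2 ^ 6 * a) * (2 ^ 9 * (a * (a * E))) := Nat.mul_le_mul (by omega) (by omega)
      _ = 2 ^ (32 * t + 160) := by rw [hE, hd, ha]; ring
      _ < 2 ^ (t * 33) := Nat.pow_lt_pow_right (by norm_num) (by omega)
      _ = _ := by rw [ha, pow_mul]
  have hc2 : V.cost < 2 ^ a :=
    Nat.lt_pow_of_log_lt (by norm_num) (lt_of_pow_lt_pow_left₀ 33 (Nat.zero_le _) (hc.trans_lt hN))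
  refine finite_bound V hV A0 r _ a d (by omega) ?_ (by omega) ?_ ?_ ?_ hc2
  · have : 1 ≤ (4 * a + 1) * (40 * a * E + 1) := Nat.mul_pos (by omega) (by omega)
    omega
  · calc 40 * a * 3 ^ d ≤ 2 ^ 6 * 2 ^ t * (2 ^ 46) ^ (t + 5) := by
          rw [hd, pow_mul, ha]
          exact Nat.mul_le_mul (by omega) (Nat.pow_le_pow_left (by norm_num) _)
      _ = _ := by
          rw [hr, ← pow_mul, ← pow_add, ← pow_add]
          exact congrArg (2 ^ ·) (by omega)
  · rw [← hE]
    have h1 : 4 * (8 * a + 3) ≤ r * (8 * a + 3) := Nat.mul_le_mul_right _ (by omega)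
    calc _ ≤ 2 * (r * (4 * a + 1) * (40 * a * E)) + r * (8 * a + 3) := by omega
      _ = _ := by ring
  · rw [Nat.add_sub_cancel]
    have h1 : ((2 * ((4 * a + 1) * (40 * a * E + 1)) * (4 * a) : ℕ) : ℝ) ≤
        410 * (a * (a * 2 ^ d)) * (4 * a) := by
      have := Nat.mul_le_mul_right (4 * a) hk
      rw [hE] at this ⊢
      exact_mod_cast this
    have h2 : (10 / 21 : ℝ) ^ d * 2 ^ d * (1024 * (a * a)) ≤ 1 := by
      have e : (1024 * (a * a) : ℝ) = 4 ^ (t + 5) := by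
        rw [ha, show (4 : ℝ) = 2 * 2 by norm_num, mul_pow]; push_cast; ring
      rw [e, ← mul_pow, hd, pow_mul, ← mul_pow]
      exact pow_le_one₀ (by positivity) (by norm_num)
    have h3 : (0 : ℝ) ≤ a := Nat.cast_nonneg _
    calc _ ≤ 5 / 7 * (10 / 21 : ℝ) ^ d * (410 * (a * (a * 2 ^ d)) * (4 * a)) :=
          mul_le_mul_of_nonneg_left h1 (by positivity)
      _ = 1025 / 896 * a * ((10 / 21 : ℝ) ^ d * 2 ^ d * (1024 * (a * a))) := by ring
      _ ≤ 1025 / 896 * a * 1 := mul_le_mul_of_nonneg_left h2 (by positivity)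
      _ ≤ _ := by push_cast; linarith

lemma Bad.good {V : Protocol} {n : ℕ} {A : List Bool → Bool} (h : Bad V n A) :
    Side A n false ∨ Side A n true := h.imp And.left And.left

lemma side_congr {A A' : List Bool → Bool} {n : ℕ} (h : ∀ s, s.length = n + 2 → A s = A' s)
    (b : Bool) : Side A n b ↔ Side A' n b := by
  have h1 : ∀ c c', part (half A c) n c' = part (half A' c) n c' := fun c c' =>
    part_congr (fun s hs => h _ (by rw [List.length_cons, hs])) c'
  unfold Side Yes Rej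
  simp only [h1]

lemma good_congr {A A' : List Bool → Bool} {n : ℕ} (h : ∀ s, s.length = n + 2 → A s = A' s)
    (h' : Side A' n false ∨ Side A' n true) : Side A n false ∨ Side A n true := by
  rwa [side_congr h, side_congr h]

/-- Every length carries a positive or a negative instance. -/
def Fine (A : List Bool → Bool) : Prop := ∀ n, Side A n false ∨ Side A n true

lemma fine_base : Fine fun s => s.headD false := fun n =>
  Or.inr ⟨⟨⟨default, by simp [part, half]⟩, fun e he => absurd (by simp [part, half]) he⟩,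
    fun w _ => by simp [part, half]⟩

lemma stage (V : List Bool → Protocol) (hu : ∀ x, (V x).Valid)
    (hc : ∃ N0, ∀ x : List Bool, N0 ≤ x.length → Nat.log 2 (V x).cost ^ 33 ≤ x.length)
    (A : List Bool → Bool) (b : ℕ) (hA : Fine A) :
    ∃ (A' : List Bool → Bool) (b' : ℕ), Fine A' ∧ b < b' ∧ (∀ s, s.length < b → A' s = A s) ∧
      ∃ x : List Bool, ∀ A'' : List Bool → Bool, (∀ s, s.length < b' → A'' s = A' s) →
        Bad (V x) x.length A'' := by
  obtain ⟨N0, hN0⟩ := hc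
  obtain ⟨N, hN, h⟩ := finite_bound' (170 + N0 + b) (by omega)
  have hx : (List.replicate N false).length = N := List.length_replicate
  obtain ⟨A', h1, h2⟩ := h (V (List.replicate N false)) (hu _)
    (by have := hN0 (List.replicate N false) (by omega); rwa [hx] at this) A
  obtain ⟨c, hcc⟩ := gval_congr (V (List.replicate N false)).acc
    (V (List.replicate N false)).rounds
  refine ⟨A', max c (N + 3), fun n => ?_, lt_max_of_lt_right (by omega),
    fun s hs => h1 s (by omega), List.replicate N false, fun A'' h3 => ?_⟩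
  · by_cases hn : n = N
    · exact hn ▸ h2.good
    · exact good_congr (fun s hs => h1 s (by omega)) (hA n)
  · have h4 : ∀ s, s.length = N + 2 → A'' s = A' s :=
      fun s hs => h3 s (lt_max_of_lt_right (by omega))
    have h5 := hcc A'' A' fun s hs => h3 s (lt_max_of_lt_left hs)
    rw [hx]
    unfold Bad Protocol.value at h2 ⊢
    rwa [h5, side_congr h4, side_congr h4]

theorem diag (V : ℕ → List Bool → Protocol) (hu : ∀ k x, (V k x).Valid)
    (hc : ∀ k, ∃ N0, ∀ x : List Bool, N0 ≤ x.length → Nat.log 2 (V k x).cost ^ 33 ≤ x.length) :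
    ∃ A : List Bool → Bool, Fine A ∧ ∀ k, ∃ x : List Bool, Bad (V k x) x.length A := by
  have step : ∀ k, ∀ z : {z : (List Bool → Bool) × ℕ // Fine z.1},
      ∃ z' : {z : (List Bool → Bool) × ℕ // Fine z.1}, z.1.2 < z'.1.2 ∧
      (∀ s, s.length < z.1.2 → z'.1.1 s = z.1.1 s) ∧ ∃ x : List Bool, ∀ A'' : List Bool → Bool,
        (∀ s, s.length < z'.1.2 → A'' s = z'.1.1 s) → Bad (V k x) x.length A'' := by
    intro k z
    obtain ⟨A', b', h1, h3, h4, h5⟩ := stage (V k) (hu k) (hc k) z.1.1 z.1.2 z.2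
    exact ⟨⟨(A', b'), h1⟩, h3, h4, h5⟩
  choose nx n1 n2 n3 using step
  let σ : ℕ → {z : (List Bool → Bool) × ℕ // Fine z.1} := fun k =>
    Nat.rec ⟨(fun s => s.headD false, 0), fine_base⟩ (fun k z => nx k z) k
  have hs : ∀ k, σ (k + 1) = nx k (σ k) := fun _ => rfl
  have mono : StrictMono fun k => (σ k).1.2 := strictMono_nat_of_lt_succ fun k => n1 k (σ k)
  have stab : ∀ j k s, j ≤ k → s.length < (σ j).1.2 → (σ k).1.1 s = (σ j).1.1 s := by
    intro j k s hjk hm
    induction k, hjk using Nat.le_induction with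
    | base => rfl
    | succ k hjk ih => rw [hs, n2 k (σ k) s (hm.trans_le (mono.monotone hjk)), ih]
  refine ⟨fun s => (σ (s.length + 1)).1.1 s, fun n =>
    good_congr (fun s h => by rw [h]) ((σ (n + 2 + 1)).2 n), fun k => ?_⟩
  obtain ⟨x, hx⟩ := n3 k (σ k)
  refine ⟨x, hx _ fun s hm => ?_⟩
  rw [← hs] at hm ⊢
  have h1 : s.length < (σ (s.length + 1)).1.2 :=
    lt_of_lt_of_le (Nat.lt_succ_self _) (mono.le_apply (x := s.length + 1))
  rcases le_total (s.length + 1) (k + 1) with h | h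
  · exact (stab _ _ s h h1).symm
  · exact stab _ _ s h hm

lemma test_rej {A : List Bool → Bool} {n : ℕ} (h : Rej A n) (w : (Fin n → Bool) → ℂ)
    (hw : IsState w) : (test n).accProb A w ≤ 1 / 3 := by
  rw [test_acc]
  exact h w hw

lemma not_yes_of_rej {A : List Bool → Bool} {n : ℕ} (h : Rej A n) : ¬ Yes A n := fun hy => by
  have h1 := test_yes hy _ rfl
  have h2 := test_rej h _ (isState_subset hy.1)
  linarith

lemma accProb_le_value (V : Protocol) (A : List Bool → Bool)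
    (P : List (Finset (Fin V.q)) → Finset (Fin V.q)) : V.accProb A P ≤ V.value A :=
  play_le_gval _ _ _ _ _

lemma exists_prover (V : Protocol) (A : List Bool → Bool) :
    ∃ P, V.value A ≤ V.accProb A P := by
  obtain ⟨P, -, h⟩ := exists_play A V.acc V.rounds ∅ (Pi.single (fun _ => false) 1)
  exact ⟨P, h⟩

end Pool.Agent.MP_36f78e_lc.H44
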